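import Pool.Agent.helper86.OF.Defs

/-!
# Edge colouring of dense critical graphs: statements of the library modules

MP_c62920_co, theorem T(eps). Any statement may be used as a hypothesis of a module (no circles).
-/

open scoped BigOperators

namespace Pool.Agent.OF

noncomputable section

open Classical

/-! ## Basic facts -/

/-- LGC. Edge colourings in the sense of `EC` and colourings of the line graph. (`c e < D` gives a
map to `Fin D`; conversely extend by `0` outside the edge set; two edges are adjacent in the line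
graph iff they are different and share a vertex.) -/
def LGC_stmt : Prop :=
  ∀ (V : Type) [Fintype V] (G : SimpleGraph V) (D : ℕ), EC G D ↔ G.lineGraph.Colorable D

/-- PTN. The partner functions of the colour classes. -/
def PTN_stmt : Prop :=
  ∀ (V : Type) [Fintype V] (G : SimpleGraph V) (D : ℕ) (c : Sym2 V → ℕ), PEC G D c → ∀ i : ℕ,
    MatIn G (ptn G c i) ∧ (∀ v w, G.Adj v w → (ptn G c i v = w ↔ c s(v, w) = i)) ∧
    (∀ v, ptn G c i v ≠ v ↔ has G c v i)

/-- COV. A graph whose edges are covered by `D` matchings (of anything) is `D`-edge-colourable.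
Colour an edge by the least `i` with `M i v = w`. -/
def COV_stmt : Prop :=
  ∀ (V : Type) [Fintype V] (G : SimpleGraph V) (D : ℕ) (M : ℕ → V → V),
    (∀ i < D, ∀ v, M i (M i v) = v) → (∀ v w, G.Adj v w → ∃ i < D, M i v = w) → EC G D

/-- CUP. Colour sets can be added: if every edge of `G` is an edge of `G₁` or of `G₂`, then the
colourings of `G₁` (colours `< a`) and `G₂` (shifted by `a`) give one of `G`. -/
def CUP_stmt : Prop :=
  ∀ (V : Type) [Fintype V] (G G₁ G₂ : SimpleGraph V) (a b : ℕ),
    (∀ v w, G.Adj v w → G₁.Adj v w ∨ G₂.Adj v w) → EC G₁ a → EC G₂ b → EC G (a + b)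

/-- SCN. Counting of colours: for a proper colouring with `D` colours the number of colours
`< D` present at `v` is the degree. -/
def SCN_stmt : Prop :=
  ∀ (V : Type) [Fintype V] (G : SimpleGraph V) (D : ℕ) (c : Sym2 V → ℕ), PEC G D c → ∀ v,
    ((Finset.range D).filter fun i => has G c v i).card = dg G v

/-! ## Kempe changes -/

/-- KSW. Exchanging two colours on a closed set gives a proper colouring. -/
def KSW_stmt : Prop :=
  ∀ (V : Type) [Fintype V] (G : SimpleGraph V) (D : ℕ) (c : Sym2 V → ℕ) (i j : ℕ) (S : Finset V),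
    PEC G D c → i < D → j < D → Kcl G c i j S →
    PEC G D (ksw c i j S) ∧
    (∀ v ∈ S, (has G (ksw c i j S) v i ↔ has G c v j) ∧ (has G (ksw c i j S) v j ↔ has G c v i)) ∧
    (∀ v, v ∉ S → ∀ k, has G (ksw c i j S) v k ↔ has G c v k) ∧
    (∀ v k, k ≠ i → k ≠ j → (has G (ksw c i j S) v k ↔ has G c v k))

/-- KCO. Kempe components: every vertex `v` is in a closed set `S` which has at most two vertices at
which exactly one of the two colours is present (the component of `v` in the graph of the edges of
the colours `i`, `j`: a connected graph with all degrees at most `2` has at most two vertices of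
degree `1`, since it has at least `#S - 1` edges, so `Σ (2 - d) ≤ 2`), and these components form a
partition: the family is given by a function `S`. The number of these vertices is even. -/
def KCO_stmt : Prop :=
  ∀ (V : Type) [Fintype V] (G : SimpleGraph V) (D : ℕ) (c : Sym2 V → ℕ) (i j : ℕ),
    PEC G D c → i ≠ j → ∃ S : V → Finset V, (∀ v, v ∈ S v) ∧ (∀ v w, w ∈ S v → S w = S v) ∧
    (∀ v, Kcl G c i j (S v)) ∧
    ∀ v, ((S v).filter fun w => ¬ (has G c w i ↔ has G c w j)).card = 0 ∨
      ((S v).filter fun w => ¬ (has G c w i ↔ has G c w j)).card = 2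

/-- BAL. Balancing. Choose a proper colouring with `D` colours minimising `Σ_i (mis i)²`. If
`mis i ≥ mis j + 3` then one of the components `S` of the colours `i`, `j` (KCO) has a positive
contribution `δ = #{x ∈ X ∩ S : i missing} - #{x ∈ X ∩ S : j missing}`, `δ ∈ {1, 2}` (only the
vertices with exactly one of the two colours count), and the exchange on `S` (KSW) decreases the
sum of squares. -/
def BAL_stmt : Prop :=
  ∀ (V : Type) [Fintype V] (G : SimpleGraph V) (D : ℕ) (X : Finset V), EC G D →
    ∃ c, PEC G D c ∧ ∀ i < D, ∀ j < D, mis G c X i ≤ mis G c X j + 2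

/-- BAV. Consequence of BAL and SCN: `D mis_i ≤ Σ_j (mis_j + 2) = Σ_{x ∈ X} (D - d(x)) + 2 D`. -/
def BAV_stmt : Prop :=
  ∀ (V : Type) [Fintype V] (G : SimpleGraph V) (D : ℕ) (X : Finset V), EC G D →
    ∃ c, PEC G D c ∧ ∀ i < D, D * mis G c X i ≤ ∑ x ∈ X, (D - dg G x) + 2 * D

/-! ## The theorems of Vizing and König -/

/-- VIZ. Vizing's theorem. -/
def VIZ_stmt : Prop :=
  ∀ (V : Type) [Fintype V] (G : SimpleGraph V) (D : ℕ), (∀ v, dg G v ≤ D) → EC G (D + 1)

/-- VAL. Vizing's adjacency lemma for a critical edge: `v` has at least `D - d(w) + 1` neighbours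
of degree `D` other than `w`. Proof (multifans): let `c` be a proper `D`-colouring of `G - vw`. Let
`F` be the smallest set of neighbours of `v` which contains `w` and contains `x'` whenever
`c(v x')` is missing at some `x ∈ F`. (1) No colour is missing at `v` and at some `x ∈ F` (otherwise
shift colours along the fan and colour `vw`); (2) no colour is missing at two different vertices of
`F` (Kempe chains with a colour missing at `v`). So the sets `M(x)`, `x ∈ F`, of missing colours are
disjoint and all these colours occur on edges from `v` to `F ∖ w`: `#F - 1 ≥ Σ_{x ∈ F} |M(x)|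
≥ (D - d(w) + 1) + #{x ∈ F ∖ w : d(x) < D}`. -/
def VAL_stmt : Prop :=
  ∀ (V : Type) [Fintype V] (G : SimpleGraph V) (D : ℕ), (∀ v, dg G v ≤ D) → ¬ EC G D →
    ∀ v w, G.Adj v w → EC (G.deleteEdges {s(v, w)}) D →
    D - dg G w + 1 ≤ (Finset.univ.filter fun x => G.Adj v x ∧ x ≠ w ∧ dg G x = D).card

/-- KON. König's edge colouring theorem. Induction on the number of edges: if `vw` is uncoloured,
`i` missing at `v`, `j` missing at `w`: the component of `v` for the colours `i`, `j` (KCO) does not
contain `w` (parity: it would be a path from `v` to `w` with an even number of edges); exchange. (Or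
by Hall's theorem for regular bipartite graphs.) -/
def KON_stmt : Prop :=
  ∀ (V : Type) [Fintype V] (G : SimpleGraph V) (A : Finset V) (D : ℕ),
    (∀ v w, G.Adj v w → ¬ (v ∈ A ↔ w ∈ A)) → (∀ v, dg G v ≤ D) → EC G D

/-! ## Matchings in bipartite graphs -/

/-- MDU. Hall and Mendelsohn-Dulmage: if Hall's condition holds for `S ⊆ A` and for `T ⊆ Aᶜ`, there
is a matching covering `S` and `T`. (Take matchings `M₁` covering `S`, `M₂` covering `T`, and choose
in each component of `M₁ ∪ M₂` suitably; or: the edge set of a matching covering `S` with the maximal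
number of covered vertices of `T`, and an alternating path argument.) -/
def MDU_stmt : Prop :=
  ∀ (V : Type) [Fintype V] (G : SimpleGraph V) (A S T : Finset V),
    (∀ v w, G.Adj v w → ¬ (v ∈ A ↔ w ∈ A)) → S ⊆ A → Disjoint T A →
    (∀ S' ⊆ S, S'.card ≤ (Finset.univ.filter fun w => ∃ v ∈ S', G.Adj v w).card) →
    (∀ T' ⊆ T, T'.card ≤ (Finset.univ.filter fun w => ∃ v ∈ T', G.Adj v w).card) →
    ∃ m, MatIn G m ∧ (∀ v ∈ S, m v ≠ v) ∧ ∀ v ∈ T, m v ≠ v

/-- DBJ. A bijection avoiding forbidden pairs. Hall: let `S ⊆ P`; if `2 #S ≤ n` every `p ∈ S` has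
`≥ n/2 ≥ #S` allowed `q`; otherwise every `q` has more than... `#S > n/2 ≥` number of forbidden `p`,
so every `q ∈ Q` is allowed for some `p ∈ S`. -/
def DBJ_stmt : Prop :=
  ∀ (α β : Type) [Fintype α] [Fintype β] [Nonempty β] (P : Finset α) (Q : Finset β)
    (bad : α → β → Prop),
    P.card = Q.card → (∀ p ∈ P, 2 * (Q.filter fun q => bad p q).card ≤ P.card) →
    (∀ q ∈ Q, 2 * (P.filter fun p => bad p q).card ≤ P.card) →
    ∃ f : α → β, (∀ p ∈ P, f p ∈ Q ∧ ¬ bad p (f p)) ∧ (∀ q ∈ Q, ∃ p ∈ P, f p = q) ∧
      ∀ p ∈ P, ∀ p' ∈ P, f p = f p' → p = p'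

/-- GRA. Greedy assignment of the items `x ∈ I` to the colours `q ∈ Q`. Items are assigned one after
the other. For the next item `x` the following colours are excluded: those of the (at most `d`)
conflicting items, the (at most `b`) colours bad for `x`, the colours which already have `cap τ` items
of the type `τ = typ x` (at most `s τ` of them), the colours `q` for which `hit x q` contains one of
the overloaded vertices (those with at least `load` hits; at most `o` of them, since there are at most
`h #I` hits in all; every such vertex excludes at most `g` colours). -/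
def GRA_stmt : Prop :=
  ∀ (ι κ ω : Type) [Fintype ι] [Fintype κ] [Fintype ω] [Nonempty κ] (I : Finset ι) (Q : Finset κ)
    (typ : ι → ℕ) (R : ι → ι → Prop) (bad : ι → κ → Prop) (hit : ι → κ → Finset ω)
    (cap s : ℕ → ℕ) (d b g h load o : ℕ),
    (∀ x ∈ I, (I.filter fun y => y ≠ x ∧ (R x y ∨ R y x)).card ≤ d) →
    (∀ x ∈ I, (Q.filter fun q => bad x q).card ≤ b) →
    (∀ τ, (I.filter fun x => typ x = τ).card ≤ s τ * cap τ) →
    (∀ x ∈ I, ∀ q ∈ Q, (hit x q).card ≤ h) →
    (∀ x ∈ I, ∀ v, (Q.filter fun q => v ∈ hit x q).card ≤ g) →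
    0 < load → h * I.card ≤ o * load →
    (∀ x ∈ I, d + b + s (typ x) + g * o < Q.card) →
    ∃ a : ι → κ, (∀ x ∈ I, a x ∈ Q) ∧ (∀ x ∈ I, ∀ y ∈ I, x ≠ y → R x y → a x ≠ a y) ∧
      (∀ x ∈ I, ¬ bad x (a x)) ∧
      (∀ q ∈ Q, ∀ τ, (I.filter fun x => a x = q ∧ typ x = τ).card ≤ cap τ) ∧
      ∀ v, (I.filter fun x => v ∈ hit x (a x)).card ≤ load

/-! ## Random signs and random subsets (finite averages) -/

/-- HOE. Hoeffding's inequality for signs, as a statement on the number of sign vectors. -/
def HOE_stmt : Prop :=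
  ∀ (ι : Type) [Fintype ι] (a : ι → ℝ) (t B : ℝ), 0 < t → 0 < B → ∑ i, (a i) ^ 2 ≤ B →
    (((Finset.univ.filter fun σ : ι → Bool =>
      t < |∑ i, (if σ i then a i else - a i)|).card : ℕ) : ℝ) ≤
      2 * Real.exp (-(t ^ 2 / (2 * B))) * 2 ^ (Fintype.card ι)

/-- BER. Hoeffding's inequality for the random subset in which every element of `E` is chosen with
probability `p`: the total weight of the subsets `R` for which `|#(R ∩ E') - p #E'| > t`. -/
def BER_stmt : Prop :=
  ∀ (E : Type) [Fintype E] (p t B : ℝ), 0 ≤ p → p ≤ 1 → 0 < t → 0 < B → ∀ E' : Finset E,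
    (E'.card : ℝ) ≤ B →
    ∑ R ∈ (Finset.univ : Finset (Finset E)).filter
        (fun R => t < |(((R ∩ E').card : ℕ) : ℝ) - p * E'.card|),
      p ^ R.card * (1 - p) ^ (Fintype.card E - R.card) ≤ 2 * Real.exp (-(t ^ 2 / (2 * B)))

/-- RND. A random subgraph. Choose every edge of `C` with probability `p`; by BER and the union bound
over the `N` degrees (`t = η N`, `B = N`) and the `4^N` pairs of disjoint sets (`t = η N²`,
`B = N²`) all the deviations are small with positive probability for large `N`. -/
def RND_stmt : Prop :=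
  ∀ η : ℝ, 0 < η → ∃ N0 : ℕ, ∀ (V : Type) [Fintype V] (C : SimpleGraph V) (p : ℝ),
    N0 ≤ Fintype.card V → 0 ≤ p → p ≤ 1 → ∃ R : SimpleGraph V, R ≤ C ∧
    (∀ v, |(dg R v : ℝ) - p * dg C v| ≤ η * Fintype.card V) ∧
    ∀ S T : Finset V, Disjoint S T →
      |(ep R S T : ℝ) - p * ep C S T| ≤ η * (Fintype.card V : ℝ) ^ 2

/-- ALN. Alignment of the colour classes. The colours are renamed by a permutation `π` of
`{0, ..., k-1}` such that every vertex `x` is joined by an edge of colour `i` to a vertex of `H i` for
at most `τ N` colours `i < k`. Proof: choose the class of the colour `0, 1, ...` one after the other;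
a vertex is overloaded if it has been hit at least `τ N / 2` times; at most `2 U / τ` vertices are
overloaded (at most `U k ≤ U N` hits), so among the remaining classes at most `U * 2 U / τ` contain an
edge from `H i` to an overloaded vertex. The last at most `2 U² / τ` colours are arbitrary. -/
def ALN_stmt : Prop :=
  ∀ (U : ℕ) (τ : ℝ), 0 < τ → ∃ N0 : ℕ, ∀ (V : Type) [Fintype V] (G : SimpleGraph V) (k : ℕ)
    (c : Sym2 V → ℕ) (H : ℕ → Finset V), N0 ≤ Fintype.card V → k ≤ Fintype.card V → PEC G k c →
    (∀ i < k, (H i).card ≤ U) → ∃ π : Equiv.Perm ℕ, (∀ i, i < k ↔ π i < k) ∧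
      PEC G k (fun e => π (c e)) ∧
      ∀ x, (((Finset.range k).filter fun i => ∃ w ∈ H i, G.Adj x w ∧ π (c s(x, w)) = i).card : ℝ) ≤
        τ * Fintype.card V

end

end Pool.Agent.OF
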