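import Pool.Agent.helper25.OF.KSW
import Pool.Agent.helper64.OF.KCO
import Pool.Agent.helper25.OF.SCN
import Pool.Agent.helper28.OF.VAL
import Pool.Agent.helper11.OF.VIZ
import Pool.Agent.helper91.OF.BAL
import Pool.Agent.helper28.OF.BAV
import Pool.Agent.helper90.OF.KB1
import Pool.Agent.helper82.OF.KB2
import Pool.Agent.helper92.OF.KB3
import Pool.Agent.helper72.OF.KSB
import Pool.Agent.helper32.OF.PTN
import Pool.Agent.helper6.OF.KPB
import Pool.Agent.helper97.OF.HOE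
import Pool.Agent.helper72.OF.PAB
import Pool.Agent.helper52.OF.WB1
import Pool.Agent.helper78.OF.KDG
import Pool.Agent.helper79.OF.DSL
import Pool.Agent.helper99.OF.GRA
import Pool.Agent.helper60.OF.WDI
import Pool.Agent.helper89.OF.MDU
import Pool.Agent.helper20.OF.HST
import Pool.Agent.helper70.OF.WPH
import Pool.Agent.helper31.OF.KON
import Pool.Agent.helper25.OF.CUP
import Pool.Agent.helper21.OF.COV
import Pool.Agent.helper30.OF.BTM
import Pool.Agent.helper21.OF.BGN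
import Pool.Agent.helper25.OF.BL0
import Pool.Agent.helper82.OF.BL1
import Pool.Agent.helper90.OF.BL2
import Pool.Agent.helper31.OF.BL3
import Pool.Agent.helper48.OF.BL4
import Pool.Agent.helper72.OF.BL5
import Pool.Agent.helper43.OF.BL6
import Pool.Agent.helper63.OF.BL7
import Pool.Agent.helper91.OF.BL8
import Pool.Agent.helper59.OF.BLM
import Pool.Agent.helper52.OF.VF
import Pool.Agent.helper32.OF.INI
import Pool.Agent.helper99.OF.TKD
import Pool.Agent.helper72.OF.CNA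
import Pool.Agent.helper71.OF.BKE
import Pool.Agent.helper25.OF.CNB
import Pool.Agent.helper12.OF.TA1
import Pool.Agent.helper46.OF.TPL
import Pool.Agent.helper97.OF.TA2
import Pool.Agent.helper99.OF.OVF
import Pool.Agent.helper55.OF.PAA
import Pool.Agent.helper82.OF.ALN
import Pool.Agent.helper84.OF.KSA
import Pool.Agent.helper43.OF.KPA
import Pool.Agent.helper61.OF.CKP
import Pool.Agent.helper59.OF.BER
import Pool.Agent.helper16.OF.RND
import Pool.Agent.helper32.OF.MRS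
import Pool.Agent.helper70.OF.MKO
import Pool.Agent.helper63.OF.BID
import Pool.Agent.helper89.OF.EJA
import Pool.Agent.helper28.OF.MPS
import Pool.Agent.helper82.OF.CMP
import Pool.Agent.helper78.OF.COR
import Pool.Agent.helper25.OF.DBJ
import Pool.Agent.helper34.OF.MDA
import Pool.Agent.helper16.OF.MA1
import Pool.Agent.helper91.OF.MA2
import Pool.Agent.helper97.OF.MAC
import Pool.Agent.helper20.OF.FIG
import Pool.Agent.helper59.OF.LGC
import Pool.Agent.helper64.OF.FIN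

/-!
# Edge colouring of dense critical graphs: assembly
-/

namespace Pool.Agent.OF

theorem t_KSW : KSW_stmt := KSW 

theorem t_KCO : KCO_stmt := KCO 

theorem t_SCN : SCN_stmt := SCN 

theorem t_VAL : VAL_stmt := VAL t_KSW t_KCO t_SCN

theorem t_VIZ : VIZ_stmt := VIZ t_VAL

theorem t_BAL : BAL_stmt := BAL t_KSW t_KCO

theorem t_BAV : BAV_stmt := BAV t_BAL t_SCN

theorem t_KB1 : KB1_stmt := KB1 

theorem t_KB2 : KB2_stmt := KB2 

theorem t_KB3 : KB3_stmt := KB3 t_KB1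

theorem t_KSB : KSB_stmt := KSB t_KB1 t_KB2 t_KB3

theorem t_PTN : PTN_stmt := PTN 

theorem t_KPB : KPB_stmt := KPB t_KSB t_PTN t_SCN

theorem t_HOE : HOE_stmt := HOE 

theorem t_PAB : PAB_stmt := PAB t_HOE

theorem t_WB1 : WB1_stmt := WB1 t_PTN

theorem t_KDG : KDG_stmt := KDG 

theorem t_DSL : DSL_stmt := DSL 

theorem t_GRA : GRA_stmt := GRA 

theorem t_WDI : WDI_stmt := WDI t_GRA

theorem t_MDU : MDU_stmt := MDU 

theorem t_HST : HST_stmt := HST t_MDU

theorem t_WPH : WPH_stmt := WPH t_HST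

theorem t_KON : KON_stmt := KON t_PTN t_SCN t_KCO t_KSW

theorem t_CUP : CUP_stmt := CUP 

theorem t_COV : COV_stmt := COV 

theorem t_BTM : BTM_stmt := BTM t_VIZ t_BAV t_KPB t_PAB t_WB1 t_KDG t_DSL t_WDI t_WPH t_KON t_CUP t_COV

theorem t_BGN : BGN_stmt := BGN t_BTM

theorem t_BL0 : BL0_stmt := BL0 t_SCN

theorem t_BL1 : BL1_stmt := BL1 t_KSW

theorem t_BL2 : BL2_stmt := BL2 t_BL1

theorem t_BL3 : BL3_stmt := BL3 t_SCN t_BL0 t_BL1 t_BL2

theorem t_BL4 : BL4_stmt := BL4 t_KSW t_SCN t_BL2 t_BL3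

theorem t_BL5 : BL5_stmt := BL5 t_BL3 t_BL4

theorem t_BL6 : BL6_stmt := BL6 t_BL1 t_BL2 t_BL3

theorem t_BL7 : BL7_stmt := BL7 t_BL0 t_BL1 t_BL3 t_BL6 t_SCN

theorem t_BL8 : BL8_stmt := BL8 t_KSW t_KCO t_SCN t_BL1 t_BL3 t_BL6 t_BL7

theorem t_BLM : BLM_stmt := BLM t_BL5 t_BL7 t_BL8

theorem t_VF : VF_stmt := VF t_VAL

theorem t_INI : INI_stmt := INI t_SCN t_PTN

theorem t_TKD : TKD_stmt := TKD 

theorem t_CNA : CNA_stmt := CNA t_TKD

theorem t_BKE : BKE_stmt := BKE t_KSW t_KCO t_BL0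

theorem t_CNB : CNB_stmt := CNB 

theorem t_TA1 : TA1_stmt := TA1 t_BLM t_VF t_INI t_TKD t_CNA t_BKE t_CNB

theorem t_TPL : TPL_stmt := TPL 

theorem t_TA2 : TA2_stmt := TA2 t_TPL

theorem t_OVF : OVF_stmt := OVF 

theorem t_PAA : PAA_stmt := PAA t_HOE

theorem t_ALN : ALN_stmt := ALN 

theorem t_KSA : KSA_stmt := KSA t_KB2

theorem t_KPA : KPA_stmt := KPA t_KSA t_PTN

theorem t_CKP : CKP_stmt := CKP t_VIZ t_BAV t_SCN t_ALN t_KPA

theorem t_BER : BER_stmt := BER 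

theorem t_RND : RND_stmt := RND t_BER

theorem t_MRS : MRS_stmt := MRS t_RND

theorem t_MKO : MKO_stmt := MKO t_KON t_BAV t_SCN t_ALN

theorem t_BID : BID_stmt := BID 

theorem t_EJA : EJA_stmt := EJA t_PTN t_SCN t_GRA t_BID

theorem t_MPS : MPS_stmt := MPS 

theorem t_CMP : CMP_stmt := CMP t_PTN t_MRS t_MKO t_EJA t_MPS

theorem t_COR : COR_stmt := COR t_CKP t_CMP

theorem t_DBJ : DBJ_stmt := DBJ 

theorem t_MDA : MDA_stmt := MDA t_DBJ t_SCN

theorem t_MA1 : MA1_stmt := MA1 t_SCN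

theorem t_MA2 : MA2_stmt := MA2 t_PTN t_COV t_CUP t_KON

theorem t_MAC : MAC_stmt := MAC t_PTN t_SCN t_PAA t_COR t_MDA t_MA1 t_MA2

theorem t_FIG : FIG_stmt := FIG t_VIZ t_BGN t_TA1 t_TA2 t_OVF t_MAC

theorem t_LGC : LGC_stmt := LGC 

theorem t_FIN : FIN_stmt := FIN t_FIG t_LGC

end Pool.Agent.OF
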