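import Mathlib

/-!
# Edge colouring of dense critical graphs: definitions

Graphs are finite simple graphs. Edge colourings are functions on `Sym2 V` with values in `ℕ`, of
which only the values on the edges matter. Matchings are given by their partner functions
`m : V → V` (`m v = v` if `v` is not covered).
-/

open scoped BigOperators

namespace Pool.Agent.OF

noncomputable section

open Classical

variable {V : Type} [Fintype V]

/-! ### Degrees and numbers of edges -/

/-- The number of neighbours of `v` in the finite set `S`. -/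
def dgs (G : SimpleGraph V) (S : Finset V) (v : V) : ℕ := (S.filter fun w => G.Adj v w).card

/-- The degree of `v`. -/
def dg (G : SimpleGraph V) (v : V) : ℕ := dgs G Finset.univ v

/-- The number of pairs `(v, w) ∈ S × T` which are adjacent (edges inside `S ∩ T` count twice). -/
def ep (G : SimpleGraph V) (S T : Finset V) : ℕ := ∑ v ∈ S, dgs G T v

/-! ### Edge colourings -/

/-- `c` is a proper edge colouring of `G` with colours `< D`. -/
def PEC {V : Type} (G : SimpleGraph V) (D : ℕ) (c : Sym2 V → ℕ) : Prop :=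
  (∀ v w, G.Adj v w → c s(v, w) < D) ∧
  ∀ v w w', G.Adj v w → G.Adj v w' → c s(v, w) = c s(v, w') → w = w'

/-- `G` has a proper edge colouring with `D` colours. -/
def EC {V : Type} (G : SimpleGraph V) (D : ℕ) : Prop := ∃ c, PEC G D c

/-- The colour `i` is present at `v`. -/
def has {V : Type} (G : SimpleGraph V) (c : Sym2 V → ℕ) (v : V) (i : ℕ) : Prop :=
  ∃ w, G.Adj v w ∧ c s(v, w) = i

/-- The partner of `v` in the colour class `i` (`v` itself if the colour is missing at `v`). -/
def ptn {V : Type} (G : SimpleGraph V) (c : Sym2 V → ℕ) (i : ℕ) (v : V) : V :=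
  if h : ∃ w, G.Adj v w ∧ c s(v, w) = i then h.choose else v

/-- `S` is closed under the edges of the colours `i` and `j`. -/
def Kcl {V : Type} (G : SimpleGraph V) (c : Sym2 V → ℕ) (i j : ℕ) (S : Finset V) : Prop :=
  ∀ v w, G.Adj v w → (c s(v, w) = i ∨ c s(v, w) = j) → (v ∈ S ↔ w ∈ S)

/-- The colours `i` and `j` are exchanged on the edges which meet `S`. -/
def ksw {V : Type} (c : Sym2 V → ℕ) (i j : ℕ) (S : Finset V) : Sym2 V → ℕ :=
  fun e => if ∃ v ∈ e, v ∈ S then Equiv.swap i j (c e) else c e

/-- The number of vertices of `X` at which the colour `i` is missing. -/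
def mis (G : SimpleGraph V) (c : Sym2 V → ℕ) (X : Finset V) (i : ℕ) : ℕ :=
  (X.filter fun x => ¬ has G c x i).card

/-- The number of vertices of `X` at which the colour `i` is present. -/
def nX (G : SimpleGraph V) (c : Sym2 V → ℕ) (X : Finset V) (i : ℕ) : ℕ :=
  (X.filter fun x => has G c x i).card

/-! ### Parts of a graph -/

/-- The edges between `A` and its complement. -/
def crossG {V : Type} (G : SimpleGraph V) (A : Finset V) : SimpleGraph V where
  Adj v w := G.Adj v w ∧ ¬ (v ∈ A ↔ w ∈ A)
  symm := ⟨fun v w h => ⟨h.1.symm, fun h' => h.2 h'.symm⟩⟩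
  loopless := ⟨fun v h => G.loopless.irrefl v h.1⟩

/-- The edges inside `A` and inside its complement. -/
def innerG {V : Type} (G : SimpleGraph V) (A : Finset V) : SimpleGraph V where
  Adj v w := G.Adj v w ∧ (v ∈ A ↔ w ∈ A)
  symm := ⟨fun v w h => ⟨h.1.symm, h.2.symm⟩⟩
  loopless := ⟨fun v h => G.loopless.irrefl v h.1⟩

/-- The edges with both ends in `X`. -/
def onG {V : Type} (G : SimpleGraph V) (X : Finset V) : SimpleGraph V where
  Adj v w := G.Adj v w ∧ v ∈ X ∧ w ∈ X
  symm := ⟨fun v w h => ⟨h.1.symm, h.2.2, h.2.1⟩⟩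
  loopless := ⟨fun v h => G.loopless.irrefl v h.1⟩

/-- The edges with at least one end outside `X`. -/
def outG {V : Type} (G : SimpleGraph V) (X : Finset V) : SimpleGraph V where
  Adj v w := G.Adj v w ∧ ¬ (v ∈ X ∧ w ∈ X)
  symm := ⟨fun v w h => ⟨h.1.symm, fun h' => h.2 ⟨h'.2, h'.1⟩⟩⟩
  loopless := ⟨fun v h => G.loopless.irrefl v h.1⟩

/-- The edges which are not in the matchings `M i`, `i ∈ I`. -/
def remG {V : Type} (G : SimpleGraph V) (M : ℕ → V → V) (I : Finset ℕ) : SimpleGraph V where
  Adj v w := G.Adj v w ∧ ∀ i ∈ I, M i v ≠ w ∧ M i w ≠ v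
  symm := ⟨fun v w h => ⟨h.1.symm, fun i hi => ⟨(h.2 i hi).2, (h.2 i hi).1⟩⟩⟩
  loopless := ⟨fun v h => G.loopless.irrefl v h.1⟩

/-! ### Matchings -/

/-- `m` is (the partner function of) a matching of `G`. -/
def MatIn {V : Type} (G : SimpleGraph V) (m : V → V) : Prop :=
  (∀ v, m (m v) = v) ∧ ∀ v, m v ≠ v → G.Adj v (m v)

/-- The matching `μ` arises from `m` by changes inside the `m`-closed set `T`; its new edges are
edges of `C`. -/
structure Chg {V : Type} (C : SimpleGraph V) (m μ : V → V) (T : Finset V) : Prop where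
  inv : ∀ v, μ (μ v) = v
  off : ∀ v, v ∉ T → μ v = m v
  clo : ∀ v ∈ T, m v ∈ T
  edg : ∀ v, μ v ≠ v → C.Adj v (μ v) ∨ μ v = m v

/-- The number of `x ∈ X` whose partner changes, one of the two partners being outside `X`. -/
def xch (m μ : V → V) (X : Finset V) : ℕ :=
  (X.filter fun x => μ x ≠ m x ∧ (μ x ∉ X ∨ m x ∉ X)).card

end

end Pool.Agent.OF
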