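import Pool.Agent.helper86.OF.Defs

/-!
# Edge colouring of dense critical graphs: definitions for the template (part B)
-/

open scoped BigOperators

namespace Pool.Agent.OF

noncomputable section

open Classical

variable {V : Type} [Fintype V]

/-- Edge-critical graphs (with respect to `D` colours). -/
structure Crit (G : SimpleGraph V) (D : ℕ) : Prop where
  deg : ∀ v, dg G v ≤ D
  con : G.Connected
  not : ¬ EC G D
  del : ∀ v w, G.Adj v w → EC (G.deleteEdges {s(v, w)}) D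

/-- The graph `K` without the edge `x0 y0`. -/
abbrev Kd {V : Type} (K : SimpleGraph V) (x0 y0 : V) : SimpleGraph V := K.deleteEdges {s(x0, y0)}

/-- A good colouring of `K`: every colour is present at `≡ p` vertices of `X` (mod 2). -/
def GoodC (K : SimpleGraph V) (X : Finset V) (D p : ℕ) : Prop :=
  ∃ c, PEC K D c ∧ ∀ i < D, nX K c X i % 2 = p % 2

/-- A colouring of `K - x0 y0` with exactly one bad colour `α`, which is missing at `x0`. -/
structure BCo (K : SimpleGraph V) (X : Finset V) (D p : ℕ) (x0 y0 : V) (c : Sym2 V → ℕ) (α : ℕ) :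
    Prop where
  pec : PEC (Kd K x0 y0) D c
  lt : α < D
  mis : ¬ has (Kd K x0 y0) c x0 α
  par : ∀ i < D, i ≠ α → nX (Kd K x0 y0) c X i % 2 = p % 2
  bad : nX (Kd K x0 y0) c X α % 2 ≠ p % 2

/-- The standing assumptions on `K`, `X` and the edge `x0 y0`. -/
structure BHyp (K : SimpleGraph V) (X : Finset V) (D : ℕ) (x0 y0 : V) (r B : ℝ) : Prop where
  ind : ∀ v ∈ X, ∀ w ∈ X, ¬ K.Adj v w
  x0X : x0 ∈ X
  y0Y : y0 ∉ X
  adj : K.Adj x0 y0
  deg : ∀ v, dg K v ≤ D
  degy : (dg K y0 : ℝ) + 4 * r ≤ D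
  degx : ∀ x ∈ X, (dg K x : ℝ) ≤ 11 / 10 * r
  yy : (ep K Xᶜ Xᶜ : ℝ) ≤ r / 10
  tot : (ep K X Xᶜ : ℝ) ≤ B * r
  B1 : 1 ≤ B
  rB : 1000 * B ^ 2 ≤ r

/-- The colours missing at `x0` and at `y0` which do not occur on the edges outside `X`. -/
def Gam (K : SimpleGraph V) (X : Finset V) (D : ℕ) (x0 y0 : V) (c : Sym2 V → ℕ) : Finset ℕ :=
  (Finset.range D).filter fun γ => ¬ has (Kd K x0 y0) c x0 γ ∧ ¬ has (Kd K x0 y0) c y0 γ ∧
    ∀ v w, (Kd K x0 y0).Adj v w → v ∉ X → w ∉ X → c s(v, w) ≠ γ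

/-- The clean colours: those of `Gam` missing at all vertices of `X` at which `α` is present. -/
def Gst (K : SimpleGraph V) (X : Finset V) (D : ℕ) (x0 y0 : V) (c : Sym2 V → ℕ) (α : ℕ) :
    Finset ℕ :=
  (Gam K X D x0 y0 c).filter fun γ => ∀ x ∈ X, has (Kd K x0 y0) c x α → ¬ has (Kd K x0 y0) c x γ

/-- The vertices outside `X` at which `α` is present. -/
def Qs (K : SimpleGraph V) (X : Finset V) (x0 y0 : V) (c : Sym2 V → ℕ) (α : ℕ) : Finset V :=
  Finset.univ.filter fun z => z ∉ X ∧ has (Kd K x0 y0) c z α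

/-- The number of vertices outside `X` on edges of colour `α` outside `X`. -/
def yyc (K : SimpleGraph V) (X : Finset V) (x0 y0 : V) (c : Sym2 V → ℕ) (α : ℕ) : ℕ :=
  (Finset.univ.filter fun v => v ∉ X ∧ ∃ w, w ∉ X ∧ (Kd K x0 y0).Adj v w ∧ c s(v, w) = α).card

/-- The heavy vertices of `X` at which `α` is present. -/
def hvc (K : SimpleGraph V) (X : Finset V) (x0 y0 : V) (r B : ℝ) (c : Sym2 V → ℕ) (α : ℕ) :
    Finset V :=
  X.filter fun x => has (Kd K x0 y0) c x α ∧ r / (40 * B) < dg K x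

/-- The violators of the colour `κ`. -/
def Vio (K : SimpleGraph V) (X : Finset V) (x0 y0 : V) (c : Sym2 V → ℕ) (α κ : ℕ) : Finset V :=
  (Finset.univ.filter fun z => z ∈ Qs K X x0 y0 c α ∧ ¬ has (Kd K x0 y0) c z κ) ∪
  (Finset.univ.filter fun z => z ∉ X ∧ z ∉ Qs K X x0 y0 c α ∧
    ∃ w, w ∈ X ∪ Qs K X x0 y0 c α ∧ (Kd K x0 y0).Adj z w ∧ c s(z, w) = κ)

/-- The reduced situation reached by the minimal choice (BL5). -/
structure BMin (K : SimpleGraph V) (X : Finset V) (D p : ℕ) (x0 y0 : V) (r B : ℝ)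
    (c : Sym2 V → ℕ) (α : ℕ) : Prop where
  bco : BCo K X D p x0 y0 c α
  hv : (hvc K X x0 y0 r B c α).card ≤ 1
  yy : ∀ γ ∈ Gam K X D x0 y0 c, ∀ v w, v ∉ X → w ∉ X → (Kd K x0 y0).Adj v w → c s(v, w) = α →
    v ≠ y0 → w ≠ y0 → has (Kd K x0 y0) c v γ ∨ has (Kd K x0 y0) c w γ

/-! ### The graph with tokens -/

/-- The vertices with tokens: the token vertices are the pairs `(x, j)`. -/
abbrev PT (V : Type) (D : ℕ) := V ⊕ (V × Fin D)

/-- The edges of `G` with an end outside `X`, and `D - d(x)` pendant edges (tokens) at every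
`x ∈ X`. -/
def tokG (G : SimpleGraph V) (X : Finset V) (D : ℕ) : SimpleGraph (PT V D) :=
  SimpleGraph.fromRel fun a b => match a, b with
    | Sum.inl v, Sum.inl w => (outG G X).Adj v w
    | Sum.inl v, Sum.inr (w, j) => v = w ∧ v ∈ X ∧ (j : ℕ) + dg G v < D
    | _, _ => False

/-- The set `X` in the graph with tokens. -/
def XT (X : Finset V) (D : ℕ) : Finset (PT V D) := X.map Function.Embedding.inl

/-! ### Templates -/

/-- The vertices of `X` which are not to be covered by edges inside `X` in the colour `i`. -/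
def Hs (G : SimpleGraph V) (X : Finset V) (c : Sym2 V → ℕ) (T : V → Finset ℕ) (i : ℕ) : Finset V :=
  X.filter fun x => i ∈ T x ∨ has (outG G X) c x i

/-- A template: a proper colouring `c` of the edges not inside `X` and sets `T x` of `D - d(x)`
colours (the tokens) for `x ∈ X`, with the right parities and a bounded number of vertices of `X` in
every colour. -/
structure Tmpl (G : SimpleGraph V) (D : ℕ) (X : Finset V) (c : Sym2 V → ℕ) (T : V → Finset ℕ)
    (U : ℕ) (κ : ℝ) : Prop where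
  deg : ∀ v, dg G v ≤ D
  pec : PEC (outG G X) D c
  tok : ∀ x ∈ X, T x ⊆ Finset.range D ∧ (T x).card + dg G x = D ∧
    ∀ i ∈ T x, ¬ has (outG G X) c x i
  par : ∀ i < D, (Hs G X c T i).card % 2 = X.card % 2
  bdd : ∀ i < D, (Hs G X c T i).card ≤ U
  byy : ∀ i < D, (Finset.univ.filter fun y => y ∉ X ∧ ∃ w, w ∉ X ∧ G.Adj y w ∧
    c s(y, w) = i).card ≤ U
  lit : ∀ x ∈ X, (dgs G Xᶜ x : ℝ) + (T x).card ≤ κ * Fintype.card V

end

end Pool.Agent.OF
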