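import Pool.Agent.helper86.OF.DefsB

/-!
# Edge colouring of dense critical graphs: definitions for the constructions (parts X and M)
-/

open scoped BigOperators

namespace Pool.Agent.OF

noncomputable section

open Classical

variable {V : Type} [Fintype V]

/-- The situation in one colour: `Z` is the set of active vertices, `X ⊆ Z` the set of vertices to be
covered, `C` the graph of the available cross edges, `m` the (inner) matching given by the colour
class, `S` a small set of overloaded vertices. -/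
structure KCtx (A X Z : Finset V) (C : SimpleGraph V) (m : V → V) (S : Finset V) (ε : ℝ) :
    Prop where
  e0 : 0 < ε
  e1 : ε ≤ 1 / 100
  XZ : X ⊆ Z
  cr : ∀ v w, C.Adj v w → v ∈ Z ∧ w ∈ Z ∧ ¬ (v ∈ A ↔ w ∈ A)
  inv : ∀ v, m (m v) = v
  inn : ∀ v, (m v ∈ A ↔ v ∈ A)
  mZ : ∀ v, v ∉ Z → m v = v
  szA : ((Z ∩ A).card : ℝ) ≤ (1 / 2 + ε) * Fintype.card V
  szB : ((Z \ A).card : ℝ) ≤ (1 / 2 + ε) * Fintype.card V
  dgc : ∀ x ∈ X, (1 / 4 + 5 * ε) * Fintype.card V ≤
    ((Finset.univ.filter fun b => b ∉ S ∧ C.Adj x b).card : ℝ)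
  szS : (S.card : ℝ) ≤ ε / 10 * Fintype.card V
  rX : ((X.filter fun x => m x = x).card : ℝ) ≤ ε / 10 * Fintype.card V

/-- The vertex `u` is stuck: few of its available neighbours are uncovered or matched to a vertex
outside `X`. -/
def stk (C : SimpleGraph V) (m : V → V) (X S : Finset V) (ε : ℝ) (u : V) : Prop :=
  ((Finset.univ.filter fun b => b ∉ S ∧ C.Adj u b ∧ (m b = b ∨ m b ∉ X)).card : ℝ) <
    2 * ε * Fintype.card V

/-- The class `m` is dense: many vertices of `X` are matched to vertices outside `X`. -/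
def dns (m : V → V) (X : Finset V) (ε : ℝ) : Prop :=
  ε / 2 * Fintype.card V ≤ ((X.filter fun x => m x ∉ X).card : ℝ)

/-- Matchings `M i`, `i < k`, of `G` which are edge-disjoint, cover `X`, and whose inner edges have
the colour `i` in the colouring `c` of the inner edges. -/
structure KOut (G : SimpleGraph V) (A X : Finset V) (k : ℕ) (c : Sym2 V → ℕ) (M : ℕ → V → V) :
    Prop where
  mat : ∀ i < k, MatIn G (M i)
  cov : ∀ i < k, ∀ x ∈ X, M i x ≠ x
  cls : ∀ i < k, ∀ v, M i v ≠ v → (v ∈ A ↔ M i v ∈ A) → c s(v, M i v) = i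
  dis : ∀ i < k, ∀ j < k, i ≠ j → ∀ v, M i v ≠ v → M i v ≠ M j v

/-- Designated edges: for each `i < w` a matching `Dm i` of `C` with edges between `X` and its
complement, `r` of them with the end in `X` belonging to `A` and `r` with this end not in `A`; the
matchings are edge-disjoint and every vertex is in at most `τ` of them. -/
structure Desg (C : SimpleGraph V) (A X : Finset V) (w r : ℕ) (τ : ℝ) (Dm : ℕ → V → V) :
    Prop where
  mat : ∀ i < w, MatIn C (Dm i)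
  typ : ∀ i < w, ∀ v, Dm i v ≠ v → (v ∈ X ↔ Dm i v ∉ X)
  cA : ∀ i < w, ((X ∩ A).filter fun x => Dm i x ≠ x).card = r
  cB : ∀ i < w, ((X \ A).filter fun x => Dm i x ≠ x).card = r
  dis : ∀ i < w, ∀ j < w, i ≠ j → ∀ v, Dm i v ≠ v → Dm i v ≠ Dm j v
  ld : ∀ v, (((Finset.range w).filter fun i => Dm i v ≠ v).card : ℝ) ≤ τ

/-- The hypotheses of the core theorem: `G` is a graph on `X`, there are `q + f` colours, in the
colour `i < q` exactly the vertices of `X ∖ H i` have to be covered; `h x` is the number of edges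
(outside `G`) and tokens at `x` which belong to the last `f` colours. -/
structure CoreH (G : SimpleGraph V) (A X : Finset V) (q f : ℕ) (H : ℕ → Finset V) (h : V → ℕ)
    (ε ζ θ : ℝ) (U : ℕ) : Prop where
  onX : ∀ v w, G.Adj v w → v ∈ X ∧ w ∈ X
  big : (1 / 2 + ε) * Fintype.card V ≤ q + f
  le : q + f ≤ Fintype.card V
  fl : ζ * Fintype.card V ≤ f
  fu : (f : ℝ) ≤ ε / 10 * Fintype.card V
  deg : ∀ x ∈ X, dg G x + ((Finset.range q).filter fun i => x ∈ H i).card + h x = q + f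
  Hs : ∀ i < q, H i ⊆ X ∧ (H i).card ≤ U ∧ Even (X \ H i).card
  lit : ∀ x ∈ X, (((Finset.range q).filter fun i => x ∈ H i).card : ℝ) ≤ θ * Fintype.card V ∧
    (h x : ℝ) ≤ θ * Fintype.card V
  bal : ∑ x ∈ X ∩ A, ((f : ℤ) - h x) = ∑ x ∈ X \ A, ((f : ℤ) - h x)
  spl : ∀ x ∈ X, |(dgs G A x : ℝ) - dgs G Aᶜ x| ≤ θ * Fintype.card V
  siz : |((X ∩ A).card : ℝ) - (X \ A).card| ≤ U

/-- The conclusion of the core theorem: edge-disjoint matchings `M i`, `i < q`, covering exactly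
`X ∖ H i` and containing all inner edges. -/
structure CoreC (G : SimpleGraph V) (A X : Finset V) (q : ℕ) (H : ℕ → Finset V) (M : ℕ → V → V) :
    Prop where
  mat : ∀ i < q, MatIn G (M i)
  cov : ∀ i < q, ∀ x ∈ X, (M i x = x ↔ x ∈ H i)
  dis : ∀ i < q, ∀ j < q, i ≠ j → ∀ v, M i v ≠ v → M i v ≠ M j v
  inn : ∀ v w, G.Adj v w → (v ∈ A ↔ w ∈ A) → ∃ i < q, M i v = w

/-- The hypotheses of the middle phase: `W` is the graph of the inner edges which are left, `C` the
graph of the cross edges which are left, `E0` a reserve of inner edges of bounded degree. -/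
structure MidH (W C E0 : SimpleGraph V) (A X : Finset V) (q f : ℕ) (H : ℕ → Finset V) (h : V → ℕ)
    (ε ζ θ : ℝ) (U U3 : ℕ) : Prop where
  wX : ∀ v w, W.Adj v w → v ∈ X ∧ w ∈ X ∧ (v ∈ A ↔ w ∈ A)
  cX : ∀ v w, C.Adj v w → v ∈ X ∧ w ∈ X ∧ ¬ (v ∈ A ↔ w ∈ A)
  ql : (Fintype.card V : ℝ) / 8 ≤ q
  le : q + f ≤ Fintype.card V
  fl : ζ * Fintype.card V ≤ f
  deg : ∀ x ∈ X, dg W x + dg C x + ((Finset.range q).filter fun i => x ∈ H i).card + h x = q + f
  Hs : ∀ i < q, H i ⊆ X ∧ (H i).card ≤ U ∧ Even (X \ H i).card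
  lit : ∀ x ∈ X, (((Finset.range q).filter fun i => x ∈ H i).card : ℝ) ≤ θ * Fintype.card V ∧
    (h x : ℝ) ≤ θ * Fintype.card V ∧ (dg W x : ℝ) ≤ θ * Fintype.card V
  cdg : ∀ x ∈ X, (1 / 4 + ε) * Fintype.card V ≤ dg C x
  bal : ∑ x ∈ X ∩ A, ((f : ℤ) - h x) = ∑ x ∈ X \ A, ((f : ℤ) - h x)
  szA : ((X ∩ A).card : ℝ) ≤ (1 / 2 + θ) * Fintype.card V
  szB : ((X \ A).card : ℝ) ≤ (1 / 2 + θ) * Fintype.card V
  siz : |((X ∩ A).card : ℝ) - (X \ A).card| ≤ U
  e0 : E0 ≤ W
  e0d : ∀ v, dg E0 v ≤ U3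
  e0A : 100 * ((U : ℝ) + 1) * Fintype.card V ≤ ep E0 (X ∩ A) (X ∩ A)
  e0B : 100 * ((U : ℝ) + 1) * Fintype.card V ≤ ep E0 (X \ A) (X \ A)

/-- The expansion property of the reserved random graph `R`. -/
def Expd (R : SimpleGraph V) (P Q : Finset V) (ζ ε κ : ℝ) : Prop :=
  ∀ S T : Finset V, S ⊆ P → T ⊆ Q → ζ * Fintype.card V ≤ S.card →
    (Q.card : ℝ) / 2 - ε * Fintype.card V ≤ T.card → κ * (Fintype.card V : ℝ) ^ 2 ≤ ep R S T

end

end Pool.Agent.OF
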