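import Pool.Agent.helper86.OF.DefsB
import Pool.Agent.helper86.OF.SpecL

/-!
# Edge colouring of dense critical graphs: the template (statements of the modules)

Notation of the docstrings: `K' = Kd K x0 y0` (the graph `K` without the edge `e = x0 y0`), present
means `has K' c`, `Γ = Gam ...`, `Γ* = Gst ...`, `Q = Qs ...`.
-/

open scoped BigOperators

namespace Pool.Agent.OF

noncomputable section

open Classical

/-! ## The abstract lemma on colourings with parity conditions -/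

/-- BL0. Sizes: every `x ∈ X` has `nX`-degree sums: `Σ_{i<D} nX i = ep K X Xᶜ` for a proper colouring
of a graph without edges inside `X` (double counting; SCN). -/
def BL0_stmt : Prop :=
  ∀ (V : Type) [Fintype V] (K : SimpleGraph V) (X : Finset V) (D : ℕ) (c : Sym2 V → ℕ),
    (∀ v ∈ X, ∀ w ∈ X, ¬ K.Adj v w) → PEC K D c →
    ∑ i ∈ Finset.range D, nX K c X i = ep K X Xᶜ

/-- BL1. Colouring the edge `e`. Let `γ ≠ α` be missing at `x0` and `y0`; `c₁` is `c` with the value
`γ` at `e`. It is a proper colouring of `K`; the colours `α` and `γ` have the wrong parity, the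
others the right one. If there is no good colouring, every set `S` closed under the colours `α`, `γ`
has an even number of vertices of `X` at which exactly one of the two is present (otherwise the
exchange on `S`, KSW, corrects both parities). The second part: `α` is present at `y0` (otherwise
give `e` the colour `α`). -/
def BL1_stmt : Prop :=
  ∀ (V : Type) [Fintype V] (K : SimpleGraph V) (X : Finset V) (D p : ℕ) (x0 y0 : V) (r B : ℝ)
    (c : Sym2 V → ℕ) (α : ℕ), BHyp K X D x0 y0 r B → ¬ GoodC K X D p → BCo K X D p x0 y0 c α →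
    has (Kd K x0 y0) c y0 α ∧
    ∀ γ < D, γ ≠ α → ¬ has (Kd K x0 y0) c x0 γ → ¬ has (Kd K x0 y0) c y0 γ →
      PEC K D (Function.update c s(x0, y0) γ) ∧
      (∀ v, v ≠ x0 → v ≠ y0 → ∀ i,
        (has K (Function.update c s(x0, y0) γ) v i ↔ has (Kd K x0 y0) c v i)) ∧
      ∀ S : Finset V, Kcl K (Function.update c s(x0, y0) γ) α γ S →
        Even (X.filter fun x => x ∈ S ∧ ¬ (has K (Function.update c s(x0, y0) γ) x α ↔
          has K (Function.update c s(x0, y0) γ) x γ)).card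

/-- BL2. Let `α` be present at `x ∈ X`, on the edge `x z` with `z ≠ y0`, and let `γ` be missing at
`x0`, `y0` and `x`. Then `γ` is present at `z`: otherwise `S = {x, z}` contradicts BL1 (`x ≠ x0` as
`α` is missing at `x0`; `z ∉ X`). -/
def BL2_stmt : Prop :=
  ∀ (V : Type) [Fintype V] (K : SimpleGraph V) (X : Finset V) (D p : ℕ) (x0 y0 : V) (r B : ℝ)
    (c : Sym2 V → ℕ) (α : ℕ), BHyp K X D x0 y0 r B → ¬ GoodC K X D p → BCo K X D p x0 y0 c α →
    ∀ γ < D, γ ≠ α → ¬ has (Kd K x0 y0) c x0 γ → ¬ has (Kd K x0 y0) c y0 γ →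
    ∀ x ∈ X, ∀ z, (Kd K x0 y0).Adj x z → c s(x, z) = α → z ≠ y0 → ¬ has (Kd K x0 y0) c x γ →
    has (Kd K x0 y0) c z γ

/-- BL3. Sizes. `α ∉ Γ` and `#Γ ≥ 2.85 r`: at least `D - (d(y0) - 1) ≥ 4 r + 1` colours are missing at
`y0`, at most `1.1 r` are present at `x0`, at most `ep K Xᶜ Xᶜ / 2` occur outside `X`. And
`nX α ≤ 2 B`: let `x ∈ X` with `α` on the edge `x z`, `z ≠ y0` (all `x` but one at most); for
`γ ∈ Γ` missing at `x` BL2 gives an edge `z w` of colour `γ`, `w ∈ X`; different `x` give different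
`z` and `w`. So `Σ_{γ∈Γ} nX γ ≥ (nX α - 1) (2.85 r - 1.1 r)`, and it is at most
`ep K X Xᶜ ≤ B r` (BL0 for `K'`). -/
def BL3_stmt : Prop :=
  ∀ (V : Type) [Fintype V] (K : SimpleGraph V) (X : Finset V) (D p : ℕ) (x0 y0 : V) (r B : ℝ)
    (c : Sym2 V → ℕ) (α : ℕ), BHyp K X D x0 y0 r B → ¬ GoodC K X D p → BCo K X D p x0 y0 c α →
    α ∉ Gam K X D x0 y0 c ∧ 285 / 100 * r ≤ (Gam K X D x0 y0 c).card ∧
    (nX (Kd K x0 y0) c X α : ℝ) ≤ 2 * B

/-- BL4. Removing a heavy vertex. Let `α` be present at the heavy vertex `x ∈ X`, on the edge `x z`,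
`z ≠ y0`. The at least `1.75 r` colours `γ ∈ Γ` missing at `x` are present at `z` (BL2), on edges
`z w` with different `w ∈ X`; at most `40 B²` vertices of `X` are heavy (`ep K X Xᶜ ≤ B r`), at most
`2 B` vertices of `X` have the colour `α` (BL3); so `γ` can be chosen such that `w` is light and `α` is
missing at `w` (`w ≠ x0` as `γ ∈ Γ`). Exchange `α` and `γ` on `S = {x, z, w}` (closed in `K'`): all
`nX` are unchanged, `yyc` is unchanged, one heavy vertex less. -/
def BL4_stmt : Prop :=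
  ∀ (V : Type) [Fintype V] (K : SimpleGraph V) (X : Finset V) (D p : ℕ) (x0 y0 : V) (r B : ℝ)
    (c : Sym2 V → ℕ) (α : ℕ), BHyp K X D x0 y0 r B → ¬ GoodC K X D p → BCo K X D p x0 y0 c α →
    ∀ x z, x ∈ hvc K X x0 y0 r B c α → (Kd K x0 y0).Adj x z → c s(x, z) = α → z ≠ y0 →
    ∃ c', BCo K X D p x0 y0 c' α ∧ yyc K X x0 y0 c' α = yyc K X x0 y0 c α ∧
      (hvc K X x0 y0 r B c' α).card < (hvc K X x0 y0 r B c α).card

/-- BL5. The minimal choice. Choose `(c, α)` with `BCo` such that first `yyc` and then the number of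
heavy vertices is minimal. By BL4 there is at most one heavy vertex (the `α`-neighbour of `y0`).
If an edge `v w` outside `X` of colour `α` with `v, w ≠ y0` had `γ ∈ Γ` missing at both ends, its
colour could be changed to `γ`, decreasing `yyc` (all `nX` unchanged). -/
def BL5_stmt : Prop :=
  ∀ (V : Type) [Fintype V] (K : SimpleGraph V) (X : Finset V) (D p : ℕ) (x0 y0 : V) (r B : ℝ),
    BHyp K X D x0 y0 r B → ¬ GoodC K X D p → (∃ c α, BCo K X D p x0 y0 c α) →
    ∃ c α, BMin K X D p x0 y0 r B c α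

/-- BL6. Many clean colours, and their vertices. `#Γ* ≥ 1.7 r`: the colours of `Γ ∖ Γ*` are present at
a vertex of `X` with the colour `α`; there are at most `2 B` of these (BL3), all but one light, so at
most `1.1 r + 2 B r / (40 B) = 1.15 r` colours. For `γ ∈ Γ*` and `z ∉ X`, `z ≠ y0`: `γ` is present at
`z` iff `α` is. Proof. (→) the edge `z w` of colour `γ` has `w ∈ X` (definition of `Γ`), `α` is missing
at `w` (clean); if `α` were missing at `z`, `S = {z, w}` would contradict BL1. (←) let `z w` be the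
edge of colour `α` and suppose `γ` missing at `z`. If `w ∈ X`: BL2 (`γ` is missing at `w`). If `w ∉ X`,
`w ≠ y0`: by `BMin.yy` `γ` is present at `w`, on an edge `w w'` with `w' ∈ X` and `α` missing at `w'`:
`S = {z, w, w'}`. If `w = y0`: `S = {z, y0, x0}` (the edge `e` has colour `γ` in BL1, `α` is missing at
`x0`). -/
def BL6_stmt : Prop :=
  ∀ (V : Type) [Fintype V] (K : SimpleGraph V) (X : Finset V) (D p : ℕ) (x0 y0 : V) (r B : ℝ)
    (c : Sym2 V → ℕ) (α : ℕ), BHyp K X D x0 y0 r B → ¬ GoodC K X D p →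
    BMin K X D p x0 y0 r B c α →
    17 / 10 * r ≤ (Gst K X D x0 y0 c α).card ∧
    ∀ γ ∈ Gst K X D x0 y0 c α, ∀ z, z ∉ X → z ≠ y0 →
      (has (Kd K x0 y0) c z γ ↔ has (Kd K x0 y0) c z α)

/-- BL7. Counting. (1) `y0 ∈ Q` (BL1). For `γ ∈ Γ*` the vertices outside `X` with `γ` are `Q ∖ y0` and
all edges of colour `γ` go to `X`, so `nX γ = #Q - 1`; hence `#Q + p` is odd, and `#Q ≤ 2 B`
(`1.7 r (#Q - 1) ≤ Σ_{γ∈Γ*} nX γ ≤ B r`). (2) For `κ < D`, `κ ≠ α` the number of violators is odd: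
with `W = X ∪ Q` the vertices of `W` with the colour `κ` are matched inside `W` or to violators
outside `W`. (3) `Vio α = ∅` and `Σ_{κ<D} #Vio κ = Σ_{z∈Q} (D - d_K(z)) + 1 + ep K Wᶜ W` (the `+ 1`
since `e` is not coloured and `y0 ∈ Q`). (4) So if `#Vio κ < 3` for all `κ ≠ α` then all of them are
`1` and the formula of the second alternative holds. -/
def BL7_stmt : Prop :=
  ∀ (V : Type) [Fintype V] (K : SimpleGraph V) (X : Finset V) (D p : ℕ) (x0 y0 : V) (r B : ℝ)
    (c : Sym2 V → ℕ) (α : ℕ), BHyp K X D x0 y0 r B → ¬ GoodC K X D p →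
    BMin K X D p x0 y0 r B c α →
    ((Qs K X x0 y0 c α).card + p) % 2 = 1 ∧ ((Qs K X x0 y0 c α).card : ℝ) ≤ 2 * B ∧
    ((∃ κ < D, κ ≠ α ∧ 3 ≤ (Vio K X x0 y0 c α κ).card) ∨
      ∑ z ∈ Qs K X x0 y0 c α, (D - dg K z) +
        ep K (X ∪ Qs K X x0 y0 c α)ᶜ (X ∪ Qs K X x0 y0 c α) + 2 = D)

/-- BL8. A colour with three violators gives a good colouring.
Step 1. There is a set `S`, closed in `K'` under the colours `κ`, `α`, with exactly one vertex `x_P` of
`X` and exactly one vertex `z_P ∉ X` at which exactly one of `κ`, `α` is present; if moreover the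
`κ`-neighbour `z_x` of `x0` exists and is not in `Q`, then `z_P = z_x`: in this case `S = {x0, z_x}`
(`α` is missing at both); otherwise take a component (KCO) with an odd number of such vertices in
`X`, it exists since `nX κ + nX α` is odd. Let `c₂` be the result of the exchange on `S`: `α` is now
good, `κ` bad. Step 2. Every violator has exactly one of the two colours, so the violators
`z ≠ z_P` are not in `S` and keep their `κ`-edges. Choose a violator `z ≠ z_P`, `z ≠ y0`, which is not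
joined to `y0` by an edge of colour `κ` with `z ∉ Q` (`y0` is a violator only if `κ` is missing at
`y0`, so at most one violator is excluded by the last two conditions); if
`nX κ ≥ #Γ*` choose it moreover outside `Q` and with its `κ`-neighbour in `X` (at least
`nX κ - #Q ≥ 1.7 r - 2 B` violators have these properties). Step 3. Type A: `z ∉ Q`, the `κ`-neighbour
`x''` in `X` (`x'' ≠ x0`, otherwise `z = z_x = z_P`): choose `γ ∈ Γ*` missing at `x''`
(`#Γ* ≥ 1.7 r > 1.1 r`), colour `e` with `γ` and exchange `κ`, `γ` on `{z, x''}` (`γ` is missing at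
`z` by BL6). Type B, C: let `z'` be the `κ`-neighbour of `z` in `Q` (type B, `z ∉ Q`, `z' ≠ y0`) or
`z' = z` (type C, `z ∈ Q`, `κ` missing at `z`). Every `γ ∈ Γ*` is present at `z'` (BL6), on an edge
`z' w` with `w ∈ X`, different for different `γ`; `α` is missing at `w` for `c`, so if `w ∈ S` then
`κ` is missing at `w` for `c₂`; since `nX κ < #Γ*` one can choose `γ` such that `κ` is missing at `w`
for `c` and so for `c₂`. Colour `e` with `γ` and exchange `κ`, `γ` on `{z, z', w}`. In all cases the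
parities of `κ` and `γ` become right. -/
def BL8_stmt : Prop :=
  ∀ (V : Type) [Fintype V] (K : SimpleGraph V) (X : Finset V) (D p : ℕ) (x0 y0 : V) (r B : ℝ)
    (c : Sym2 V → ℕ) (α κ : ℕ), BHyp K X D x0 y0 r B → ¬ GoodC K X D p →
    BMin K X D p x0 y0 r B c α → κ < D → κ ≠ α → (Vio K X x0 y0 c α κ).card < 3

/-- BLM. The abstract lemma (assembly of BL5, BL7, BL8). -/
def BLM_stmt : Prop :=
  ∀ (V : Type) [Fintype V] (K : SimpleGraph V) (X : Finset V) (D p : ℕ) (x0 y0 : V) (r B : ℝ),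
    BHyp K X D x0 y0 r B → (∃ c α, BCo K X D p x0 y0 c α) →
    GoodC K X D p ∨ ∃ Q : Finset V, Disjoint Q X ∧ (Q.card + p) % 2 = 1 ∧
      ∑ z ∈ Q, (D - dg K z) + ep K (X ∪ Q)ᶜ (X ∪ Q) + 2 = D

/-- BKE. Equalising the numbers `nX i`. Choose a good colouring minimising `Σ (nX i)²` and suppose
`nX i ≥ nX j + 6`. Every component `S` of the colours `i`, `j` (KCO) has
`c(S) = #{x ∈ X ∩ S : only i} - #{x ∈ X ∩ S : only j} ∈ {-2, ..., 2}` and the sum of all `c(S)` is
`nX i - nX j`. If some `c(S) = 2`, exchange on `S`; otherwise at least two components have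
`c(S) = 1`, exchange on their union: `nX i` decreases by `2`, `nX j` increases by `2`, the parities are
kept, the sum of squares decreases. So `nX i ≤ nX j + 5` and `D nX i ≤ Σ_j nX j + 5 D` (BL0). -/
def BKE_stmt : Prop :=
  ∀ (V : Type) [Fintype V] (K : SimpleGraph V) (X : Finset V) (D p : ℕ),
    (∀ v ∈ X, ∀ w ∈ X, ¬ K.Adj v w) → GoodC K X D p →
    ∃ c, PEC K D c ∧ (∀ i < D, nX K c X i % 2 = p % 2) ∧
      ∀ i < D, D * nX K c X i ≤ ep K X Xᶜ + 5 * D

/-- TPL. Distribution of tokens. Every `v` gets a set `T v` of `a v` colours; `S i = {v : i ∈ T v}`,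
a colour is bad if `#S i ≢ p`. Choose `T` with the least number of bad colours; this number is even.
If it is not zero let `α ≠ β` be bad. No `v` has exactly one of `α`, `β` (otherwise exchange it at
`v`), so `S α = S β =: Z`. If `κ` is good, `#(S κ Δ Z)` is odd; if it is at least `3` take different
`x₁, x₂` in it, exchange `κ`, `α` at `x₁` and `κ`, `β` at `x₂`: two bad colours less. So
`#(S κ Δ Z) = 1` for the good colours and `0` for the (at least two) bad ones, and
`Σ_{v∉Z} a v + Σ_{v∈Z} (D - a v) = Σ_κ #(S κ Δ Z) ≤ D - 2`. Otherwise choose `T` without bad colours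
minimising `Σ (#S i)²`: if `#S i ≥ #S j + 4`, move two tokens from `i` to `j`. -/
def TPL_stmt : Prop :=
  ∀ (V : Type) [Fintype V] (D p : ℕ) (a : V → ℕ), (∀ v, a v ≤ D) →
    (∑ v, a v) % 2 = (p * D) % 2 →
    (∃ Z : Finset V, (Z.card + p) % 2 = 1 ∧ ∑ v ∈ Zᶜ, a v + ∑ v ∈ Z, (D - a v) + 2 ≤ D) ∨
    ∃ T : V → Finset ℕ, (∀ v, T v ⊆ Finset.range D ∧ (T v).card = a v) ∧
      (∀ i < D, (Finset.univ.filter fun v => i ∈ T v).card % 2 = p % 2) ∧
      ∀ i < D, D * (Finset.univ.filter fun v => i ∈ T v).card ≤ ∑ v, a v + 5 * D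

/-! ## Critical graphs -/

/-- OVF. An overfull set in a critical graph is everything, and the number of edges is exact: if an
edge `e` is not inside `W` then `G - e` has a colouring with `D` colours, each with at most
`(#W - 1)/2` edges inside `W`, a contradiction; so all edges are inside `W` and `W` is everything by
connectedness. For an edge `e`: `ep (G - e) = ep G - 2 ≤ D (N - 1)`. -/
def OVF_stmt : Prop :=
  ∀ (V : Type) [Fintype V] (G : SimpleGraph V) (D : ℕ), Crit G D → ∀ W : Finset V,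
    W.card % 2 = 1 → D * (W.card - 1) + 2 ≤ ep G W W →
    W = Finset.univ ∧ ep G Finset.univ Finset.univ = D * (Fintype.card V - 1) + 2

/-- VF. Consequences of Vizing's adjacency lemma (VAL) for `X = {v : D - d(v) < ρ N}` if
`Σ_{x∈X} (D - d(x)) + ep G X Xᶜ ≤ C N`. (1) an edge `y y'` outside `X`: `y` has `≥ ρ N` neighbours
of degree `D` (in `X`), so at most `C/ρ` vertices `y` outside `X` have neighbours outside `X` and
`ep G Xᶜ Xᶜ ≤ (C/ρ)²`. (2) If `x ∈ X` has `δ ≥ 1` neighbours outside `X`, one of them, `y`, has at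
most `C N/δ` neighbours in `X`, so `d(y) ≤ C N/δ + C/ρ`; by VAL `x` has at least `D - d(y) + 1`
neighbours of degree `D`, at most `D - δ` neighbours in `X`; so `δ ≤ C N/δ + C/ρ`, hence
`δ ≤ sqrt(C N) + C/ρ ≤ η N`. (3) VAL: every non-isolated vertex has a neighbour of degree `D`
(`G` is connected and has an edge as it is not `D`-colourable). -/
def VF_stmt : Prop :=
  ∀ ρ C η : ℝ, 0 < ρ → 0 < C → 0 < η → ∃ N0 : ℕ, ∀ (V : Type) [Fintype V] (G : SimpleGraph V)
    (D : ℕ) (X : Finset V), N0 ≤ Fintype.card V → Crit G D →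
    (∀ v, v ∈ X ↔ (D : ℝ) < dg G v + ρ * Fintype.card V) →
    ((∑ x ∈ X, (D - dg G x) + ep G X Xᶜ : ℕ) : ℝ) ≤ C * Fintype.card V →
    (ep G Xᶜ Xᶜ : ℝ) ≤ (C / ρ) ^ 2 ∧ (∀ x ∈ X, (dgs G Xᶜ x : ℝ) ≤ η * Fintype.card V) ∧
    ∀ y, ∃ x, G.Adj y x ∧ dg G x = D

/-- INI. The initial colouring of the graph with tokens. Let `x0 ∈ X` have degree `D`, `y0 ∉ X` be
adjacent to `x0` and `φ` a proper `D`-colouring of `G - x0 y0`. Colour the edges `outG` by `φ` and
the `D - d(x)` tokens at `x ∈ X` with the colours missing at `x` (at `x0` exactly one colour `α` is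
missing and there are no tokens). For a colour `i` the vertices of `X` at which it is present in `K'`
are those not covered by edges of colour `i` inside `X`, except `x0` if `i = α`; so
`nX i ≡ #X` for `i ≠ α` and `nX α ≡ #X - 1`. -/
def INI_stmt : Prop :=
  ∀ (V : Type) [Fintype V] (G : SimpleGraph V) (D : ℕ) (X : Finset V) (x0 y0 : V),
    (∀ v, dg G v ≤ D) → x0 ∈ X → y0 ∉ X → G.Adj x0 y0 → dg G x0 = D →
    EC (G.deleteEdges {s(x0, y0)}) D →
    ∃ c α, BCo (tokG G X D) (XT X D) D X.card (Sum.inl x0) (Sum.inl y0) c α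

/-- TKD. Degrees in the graph with tokens. -/
def TKD_stmt : Prop :=
  ∀ (V : Type) [Fintype V] (G : SimpleGraph V) (D : ℕ) (X : Finset V), (∀ v, dg G v ≤ D) →
    (∀ v ∈ X, dg (tokG G X D) (Sum.inl v) = dgs G Xᶜ v + (D - dg G v)) ∧
    (∀ v, v ∉ X → dg (tokG G X D) (Sum.inl v) = dg G v) ∧
    (∀ z, dg (tokG G X D) (Sum.inr z) ≤ 1) ∧
    ep (tokG G X D) (XT X D) (XT X D)ᶜ = ep G X Xᶜ + ∑ x ∈ X, (D - dg G x) ∧
    ep (tokG G X D) (XT X D)ᶜ (XT X D)ᶜ = ep G Xᶜ Xᶜ ∧
    (∀ v ∈ XT X D, ∀ w ∈ XT X D, ¬ (tokG G X D).Adj v w)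

/-- CNA. From the second alternative of BLM for the graph with tokens to an overfull set: no token
vertex is in `Q` (it would contribute at least `D - 1`), `W = X ∪ Q`; `D ≥ 2`. -/
def CNA_stmt : Prop :=
  ∀ (V : Type) [Fintype V] (G : SimpleGraph V) (D : ℕ) (X : Finset V), (∀ v, dg G v ≤ D) →
    ∀ Q : Finset (PT V D), Disjoint Q (XT X D) → (Q.card + X.card) % 2 = 1 →
    ∑ z ∈ Q, (D - dg (tokG G X D) z) +
      ep (tokG G X D) (XT X D ∪ Q)ᶜ (XT X D ∪ Q) + 2 = D →
    ∃ W : Finset V, W.card % 2 = 1 ∧ D * (W.card - 1) + 2 ≤ ep G W W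

/-- CNB. From a good colouring of the graph with tokens with small numbers `nX i` (BKE) to a
template. -/
def CNB_stmt : Prop :=
  ∀ (V : Type) [Fintype V] (G : SimpleGraph V) (D : ℕ) (X : Finset V) (U : ℕ) (κ : ℝ),
    (∀ v, dg G v ≤ D) → ∀ c : Sym2 (PT V D) → ℕ, PEC (tokG G X D) D c →
    (∀ i < D, nX (tokG G X D) c (XT X D) i % 2 = X.card % 2) →
    (∀ i < D, nX (tokG G X D) c (XT X D) i ≤ U) → ep G Xᶜ Xᶜ ≤ U →
    (∀ x ∈ X, (dgs G Xᶜ x : ℝ) + ((D - dg G x : ℕ) : ℝ) ≤ κ * Fintype.card V) →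
    ∃ (c' : Sym2 V → ℕ) (T : V → Finset ℕ), Tmpl G D X c' T U κ

/-- TA1. The template if there is a vertex of small degree. BLM for the graph with tokens with
`r = ρ N`, `B = C / ρ + 1`, `x0` a neighbour of `y0` of degree `D` (VF (3); `x0 ∈ X`), `y0` a vertex
with `d(y0) ≤ D - 4 ρ N`; VF with `η = ρ / 10`; INI, TKD, CNA, BKE, CNB (`ep ≤ C N ≤ 2 C D`, so
`nX i ≤ 2 C + 5`). -/
def TA1_stmt : Prop :=
  ∀ ε ρ C : ℝ, 0 < ε → 0 < ρ → ρ ≤ ε / 8 → 0 < C → ∃ (U N0 : ℕ), ∀ (V : Type) [Fintype V]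
    (G : SimpleGraph V) (D : ℕ) (X : Finset V), N0 ≤ Fintype.card V → Crit G D →
    (1 / 2 + ε) * Fintype.card V ≤ D →
    (∀ v, v ∈ X ↔ (D : ℝ) < dg G v + ρ * Fintype.card V) →
    (∃ y, (dg G y : ℝ) + 4 * (ρ * Fintype.card V) ≤ D) →
    ((∑ x ∈ X, (D - dg G x) + ep G X Xᶜ : ℕ) : ℝ) ≤ C * Fintype.card V →
    (∃ W : Finset V, W.card % 2 = 1 ∧ D * (W.card - 1) + 2 ≤ ep G W W) ∨
    ∃ (c : Sym2 V → ℕ) (T : V → Finset ℕ), Tmpl G D X c T U (ε / 2)

/-- TA2. The template if all degrees are large: `X` is everything and only the tokens have to be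
distributed: TPL with `a v = D - d(v)`, `p = N`. In the first alternative `W = Zᶜ` is overfull:
`ep G W W = Σ_{v∈W} d(v) - ep G W Z ≥ Σ_{v∈W} d(v) - Σ_{v∈Z} d(v)`. -/
def TA2_stmt : Prop :=
  ∀ ε C : ℝ, 0 < ε → 0 < C → ∃ (U N0 : ℕ), ∀ (V : Type) [Fintype V] (G : SimpleGraph V) (D : ℕ),
    N0 ≤ Fintype.card V → (∀ v, dg G v ≤ D) → (1 / 2 + ε) * Fintype.card V ≤ D →
    (∀ v, (D : ℝ) < dg G v + ε / 2 * Fintype.card V) →
    ((∑ x, (D - dg G x) : ℕ) : ℝ) ≤ C * Fintype.card V →
    (∃ W : Finset V, W.card % 2 = 1 ∧ D * (W.card - 1) + 2 ≤ ep G W W) ∨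
    ∃ (c : Sym2 V → ℕ) (T : V → Finset ℕ), Tmpl G D Finset.univ c T U (ε / 2)

end

end Pool.Agent.OF
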