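import Pool.Agent.helper86.OF.SpecX
import Pool.Agent.helper86.OF.SpecB

/-!
# Edge colouring of dense critical graphs: the core machine (part M) and the final theorem

`N` is the number of vertices. `shift(u, b)` and `join(u, w)` as in SpecX.
-/

open scoped BigOperators

namespace Pool.Agent.OF

noncomputable section

open Classical

/-- The situation in one colour of the middle phase: `Z` the vertices to be covered, `m` the current
matching, consisting of cross edges and of the inner edges inside the `m`-closed set `EE`; `R` the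
reserve graph, `S` a small set of overloaded vertices. -/
structure MCtx {V : Type} [Fintype V] (A Z EE S : Finset V) (R : SimpleGraph V) (m : V → V)
    (ζ ε κ δ : ℝ) : Prop where
  inv : ∀ v, m (m v) = v
  mZ : ∀ v, v ∉ Z → m v = v
  rZ : ∀ v w, R.Adj v w → v ∈ Z ∧ w ∈ Z ∧ ¬ (v ∈ A ↔ w ∈ A)
  ee : ∀ v ∈ EE, m v ∈ EE ∧ m v ≠ v
  cr : ∀ v, v ∉ EE → m v ≠ v → ¬ (v ∈ A ↔ m v ∈ A)
  szE : (EE.card : ℝ) ≤ δ * Fintype.card V
  szS : (S.card : ℝ) ≤ δ * Fintype.card V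
  un : ((Z.filter fun v => m v = v).card : ℝ) ≤ δ * Fintype.card V
  eq : ((Z ∩ A).filter fun v => m v = v).card = ((Z \ A).filter fun v => m v = v).card
  dgr : ∀ v ∈ Z, ζ * Fintype.card V ≤
    ((Finset.univ.filter fun b => b ∉ S ∧ R.Adj v b).card : ℝ)
  ex1 : Expd R (Z ∩ A) (Z \ A) (ζ / 2) ε κ
  ex2 : Expd R (Z \ A) (Z ∩ A) (ζ / 2) ε κ
  dif : |((Z ∩ A).card : ℝ) - (Z \ A).card| ≤ δ * Fintype.card V

/-! ## The first phase -/

/-- KSA. One colour of the first phase when all active vertices have to be covered (`X = Z`): all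
vertices are stuck (`m` maps `Z` to `Z`), so the uncovered vertices can be paired up and KB2 applies
to each pair. -/
def KSA_stmt : Prop :=
  ∀ (V : Type) [Fintype V] (A Z S : Finset V) (C : SimpleGraph V) (m : V → V) (ε : ℝ),
    KCtx A Z Z C m S ε → Even (Z.filter fun x => m x = x).card →
    ((Z.filter fun x => m x = x).card : ℝ) ≤ ε / 1000 * Fintype.card V →
    1000 ≤ ε * Fintype.card V →
    ∃ (μ : V → V) (T : Finset V), Chg C m μ T ∧ (∀ x ∈ Z, μ x ≠ x) ∧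
      T.card ≤ 3 * (Z.filter fun x => m x = x).card ∧
      ∀ v ∈ T, (v ∈ Z ∧ m v = v) ∨ v ∉ S

/-- KPA. The colours `i = 0, ..., k-1` one after the other: `Z_i = X ∖ H i`, `m_i` the class `i`
restricted to `Z_i` (edges meeting `H i` deleted), `C_i` the cross graph on `Z_i` without the edges of
`M j`, `j < i`, `S_i` the set of the vertices in at least `θ N / 4` of the sets `T_j` of KSA, `j < i`.
At most `2 δ N` vertices of `Z_i` are uncovered (an even number, as `#Z_i` is even). For `δ` small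
compared with `θ ε` and `N` large: `#S_i ≤ k (6 δ N) / (θ N / 4) ≤ ε N / 10`; every vertex is touched
(`M i v ≠ ptn .. i v`) at most `θ N / 4 + 1 + 4 δ N ≤ θ N` times. -/
def KPA_stmt : Prop :=
  ∀ ε θ : ℝ, 0 < ε → ε ≤ 1 / 100 → 0 < θ → θ ≤ ε → ∃ (δ : ℝ) (N0 : ℕ), 0 < δ ∧
    ∀ (V : Type) [Fintype V] (G : SimpleGraph V) (A X : Finset V) (k k1 : ℕ) (c : Sym2 V → ℕ)
    (H : ℕ → Finset V), N0 ≤ Fintype.card V → k ≤ k1 → k1 ≤ Fintype.card V →
    (∀ v w, G.Adj v w → v ∈ X ∧ w ∈ X) → PEC (innerG G A) k1 c →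
    ((X ∩ A).card : ℝ) ≤ (1 / 2 + ε) * Fintype.card V →
    ((X \ A).card : ℝ) ≤ (1 / 2 + ε) * Fintype.card V →
    (∀ x ∈ X, (1 / 4 + 10 * ε) * Fintype.card V ≤ dg (crossG G A) x) →
    (∀ i < k, H i ⊆ X ∧ Even (X \ H i).card ∧ ((H i).card : ℝ) ≤ δ * Fintype.card V ∧
      (mis (innerG G A) c X i : ℝ) ≤ δ * Fintype.card V) →
    (∀ x ∈ X, (((Finset.range k).filter fun i => x ∈ H i).card : ℝ) ≤ δ * Fintype.card V ∧
      (((Finset.range k).filter fun i => ¬ has (innerG G A) c x i).card : ℝ) ≤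
        δ * Fintype.card V ∧
      (((Finset.range k).filter fun i => ∃ w ∈ H i, (innerG G A).Adj x w ∧
        c s(x, w) = i).card : ℝ) ≤ δ * Fintype.card V) →
    ∃ M : ℕ → V → V, (∀ i < k, MatIn G (M i)) ∧ (∀ i < k, ∀ x ∈ X, (M i x = x ↔ x ∈ H i)) ∧
      (∀ i < k, ∀ v, M i v ≠ v → (v ∈ A ↔ M i v ∈ A) → c s(v, M i v) = i) ∧
      (∀ i < k, ∀ j < k, i ≠ j → ∀ v, M i v ≠ v → M i v ≠ M j v) ∧
      ∀ v, (((Finset.range k).filter fun i => M i v ≠ ptn (innerG G A) c i v).card : ℝ) ≤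
        θ * Fintype.card V

/-- CKP. The first phase of the core theorem. The inner degrees of `x ∈ X` are between
`(q + f) / 2 - 2 θ N` and `(q + f) / 2 + θ N`; `k1 = ⌊(q + f) / 2 + θ N⌋ + 1`, VIZ and BAV (for
`innerG G A`, `X`): classes missing at most `20 θ N + 10` vertices of `X`. Reserve:
`U3 = 6 U4 + 6` classes, `k = k1 - U3`, `E0` the graph of the classes `k, ..., k1 - 1`; each of them
has at least `#(X ∩ A) - 20 θ N - 10 ≥ N / 6` vertices covered inside `X ∩ A`. ALN with the sets `H i`,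
`i < k` (and `∅` for `i ≥ k`), before choosing `E0`. KPA with `ε / 40` and `θ' / 2` (at most `ε / 40`).
An inner edge not in the `M i` belongs to `E0` or to a class `i < k` with `M i v ≠ ptn .. i v`.
(`X` must be nonempty: the last two conditions.) -/
def CKP_stmt : Prop :=
  ∀ (ε ζ θ' : ℝ), 0 < ε → 0 < ζ → 0 < θ' → ∃ θ : ℝ, 0 < θ ∧ ∀ U U4 : ℕ, ∃ (U3 N0 : ℕ),
    ∀ (V : Type) [Fintype V] (G : SimpleGraph V) (A X : Finset V) (q f : ℕ) (H : ℕ → Finset V)
    (h : V → ℕ), N0 ≤ Fintype.card V → X.Nonempty → CoreH G A X q f H h ε ζ θ U →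
    ∃ (k : ℕ) (M : ℕ → V → V) (E0 : SimpleGraph V), k ≤ q ∧
      (Fintype.card V : ℝ) / 8 ≤ ((q - k : ℕ) : ℝ) ∧
      (∀ i < k, MatIn G (M i)) ∧ (∀ i < k, ∀ x ∈ X, (M i x = x ↔ x ∈ H i)) ∧
      (∀ i < k, ∀ j < k, i ≠ j → ∀ v, M i v ≠ v → M i v ≠ M j v) ∧
      (∀ v, (dg (innerG (remG G M (Finset.range k)) A) v : ℝ) ≤ θ' * Fintype.card V) ∧
      (∀ x ∈ X, (1 / 4 + ε / 4) * Fintype.card V ≤ dg (crossG (remG G M (Finset.range k)) A) x) ∧
      E0 ≤ innerG (remG G M (Finset.range k)) A ∧ (∀ v, dg E0 v ≤ U3) ∧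
      (U4 : ℝ) * Fintype.card V ≤ ep E0 (X ∩ A) (X ∩ A) ∧
      (U4 : ℝ) * Fintype.card V ≤ ep E0 (X \ A) (X \ A)

/-! ## The middle phase -/

/-- MRS. The reserve graph. RND for `C` with `p = (f + 2 η' N) / (q + f)` and small `η'`: the degrees
satisfy `q + f - 3 θ N ≤ dg C x ≤ q + f`, so `dg C x - dg R x` is between
`q - 4 η' N - 3 θ N` and `q`, and `dg R x ≥ f - 3 θ N - η' N ≥ f / 2`. Expansion: for `S ⊆ X ∩ A`,
`T ⊆ X ∖ A` as in `Expd` every `s ∈ S` has at least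
`(1/4 + ε) N + #T - #(X ∖ A) ≥ (ε - ε/4 - θ/2) N ≥ ε N / 2` neighbours in `T`, so
`ep C S T ≥ (ζ N / 8) (ε N / 2)` and `ep R S T ≥ ζ (ζ N / 8) (ε N / 2) - η' N² ≥ κ N²` with
`κ = ζ² ε / 32` (`p ≥ f / (q + f) ≥ ζ`). -/
def MRS_stmt : Prop :=
  ∀ ε ζ : ℝ, 0 < ε → 0 < ζ → ∃ κ : ℝ, 0 < κ ∧ ∀ η : ℝ, 0 < η →
    ∃ (θ : ℝ) (N0 : ℕ), 0 < θ ∧ ∀ (V : Type) [Fintype V] (W C E0 : SimpleGraph V)
    (A X : Finset V) (q f : ℕ) (H : ℕ → Finset V) (h : V → ℕ) (U U3 : ℕ), N0 ≤ Fintype.card V →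
    MidH W C E0 A X q f H h ε ζ θ U U3 →
    ∃ R : SimpleGraph V, R ≤ C ∧ (∀ x ∈ X, dg C x ≤ dg R x + q) ∧
      (∀ x ∈ X, (q : ℝ) + dg R x ≤ dg C x + η * Fintype.card V) ∧ (∀ x ∈ X, f ≤ 2 * dg R x) ∧
      Expd R (X ∩ A) (X \ A) (ζ / 8) (ε / 4) κ ∧ Expd R (X \ A) (X ∩ A) (ζ / 8) (ε / 4) κ

/-- MKO. The classes of the middle phase. KON for the graph `C \ R` (degrees at most `q`) and BAV
give a colouring whose classes miss at most `(N η1 N + 2 q) / q ≤ 8 η1 N + 2` vertices of `X`; a vertex is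
missed by `q - (dg C x - dg R x) ≤ η1 N` classes (SCN); ALN for the sets `H i`. -/
def MKO_stmt : Prop :=
  ∀ η : ℝ, 0 < η → ∃ η1 : ℝ, 0 < η1 ∧ ∀ U : ℕ, ∃ N0 : ℕ, ∀ (V : Type) [Fintype V]
    (C R : SimpleGraph V) (A X : Finset V) (q : ℕ) (H : ℕ → Finset V), N0 ≤ Fintype.card V →
    (∀ v w, C.Adj v w → v ∈ X ∧ w ∈ X ∧ ¬ (v ∈ A ↔ w ∈ A)) → R ≤ C →
    (Fintype.card V : ℝ) / 8 ≤ q → q ≤ Fintype.card V → (∀ i < q, (H i).card ≤ U) →
    (∀ x ∈ X, dg C x ≤ dg R x + q) →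
    (∀ x ∈ X, (q : ℝ) + dg R x ≤ dg C x + η1 * Fintype.card V) →
    ∃ c, PEC (C \ R) q c ∧ (∀ i < q, (mis (C \ R) c X i : ℝ) ≤ η * Fintype.card V) ∧
      (∀ x ∈ X, (((Finset.range q).filter fun i => ¬ has (C \ R) c x i).card : ℝ) ≤
        η * Fintype.card V) ∧
      ∀ x, (((Finset.range q).filter fun i => ∃ w ∈ H i, (C \ R).Adj x w ∧
        c s(x, w) = i).card : ℝ) ≤ η * Fintype.card V

/-- BID. The balance identity. `Σ_{x ∈ X ∩ A} dg W x = ep W (X ∩ A) (X ∩ A)`, the sums of `dg C` over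
`X ∩ A` and `X ∖ A` are equal; insert `deg` and `bal`. -/
def BID_stmt : Prop :=
  ∀ (V : Type) [Fintype V] (W C E0 : SimpleGraph V) (A X : Finset V) (q f : ℕ)
    (H : ℕ → Finset V) (h : V → ℕ) (ε ζ θ : ℝ) (U U3 : ℕ),
    MidH W C E0 A X q f H h ε ζ θ U U3 →
    (ep W (X ∩ A) (X ∩ A) : ℤ) - ep W (X \ A) (X \ A) =
      ∑ i ∈ Finset.range q, ((((X ∩ A) \ H i).card : ℤ) - ((X \ A) \ H i).card)

/-- EJA. Distribution of the inner edges `W` to the `q` colours. Put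
`2 c_i = #((X ∩ A) ∖ H i) - #((X ∖ A) ∖ H i)` (even, `|c_i| ≤ U`); the matching `E i` needs `c_i` edges
more inside `X ∩ A` than inside `X ∖ A`. (1) Singles: for `i = 0, 1, ...` choose `|c_i|` edges of `E0`
inside `X ∩ A` (if `c_i > 0`) or `X ∖ A` (if `c_i < 0`), disjoint, not used before, avoiding `H i` and the
vertices whose partner in the class `i` is overloaded (hit at least `η N / 4` times; at most
`8 U / η` vertices): at most `U N` edges are used before, the excluded vertices are at most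
`3 U + 8 U / η` and each is on at most `U3` edges of `E0`. (2) By BID the remaining edges of `W` are
equally many on both sides; pair them up arbitrarily: items of two edges. GRA: conflicts (common
vertex) `d = 4 θ N`; bad: the item meets `H i` or a single of `i` (`b = 8 θ N`); `hit x i` the vertices
`ptn .. i v ≠ v`, `v` in the item (`h = 4`, `g = 4`), `load = η N / 4`, `o = 8 θ N / η + 1`; one type with
`cap = ⌈10 #items / q⌉ ≤ 40 θ N + 1`, `s = q / 10 + 1`. -/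
def EJA_stmt : Prop :=
  ∀ (ε ζ η : ℝ), 0 < ε → 0 < ζ → 0 < η → ∃ θ : ℝ, 0 < θ ∧ ∀ U U3 : ℕ, ∃ N0 : ℕ,
    ∀ (V : Type) [Fintype V] (W C E0 R : SimpleGraph V) (A X : Finset V) (q f : ℕ)
    (H : ℕ → Finset V) (h : V → ℕ) (c : Sym2 V → ℕ), N0 ≤ Fintype.card V →
    MidH W C E0 A X q f H h ε ζ θ U U3 → PEC (C \ R) q c →
    ∃ E : ℕ → V → V, (∀ i < q, MatIn W (E i)) ∧ (∀ v w, W.Adj v w → ∃ i < q, E i v = w) ∧
      (∀ i < q, ∀ j < q, i ≠ j → ∀ v, E i v ≠ v → E i v ≠ E j v) ∧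
      (∀ i < q, ∀ x ∈ H i, E i x = x) ∧
      (∀ i < q, ((Finset.univ.filter fun v => E i v ≠ v).card : ℝ) ≤ η * Fintype.card V) ∧
      (∀ i < q, ((X ∩ A).filter fun x => x ∉ H i ∧ E i x = x).card =
        ((X \ A).filter fun x => x ∉ H i ∧ E i x = x).card) ∧
      ∀ v, (((Finset.range q).filter fun i => E i (ptn (C \ R) c i v) ≠
        ptn (C \ R) c i v).card : ℝ) ≤ η * Fintype.card V

/-- MPS. One colour of the middle phase. The uncovered vertices are treated in pairs `a ∈ Z ∩ A`,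
`b ∈ Z ∖ A`; `T` is the set of the vertices touched so far (at most `4 δ N`). Let `N1` be the set of the
`n ∉ S ∪ T ∪ EE` with `R.Adj a n`, `m n ≠ n`, `m n ∉ S ∪ T`; `#N1 ≥ ζ N / 2`; `P1 = m(N1) ⊆ Z ∩ A`. Let
`N2` be the set of the vertices of `Z ∖ A` with at least `3` `R`-neighbours in `P1`: as
`ep R P1 ((Z ∖ A) ∖ N2) ≤ 2 N < κ N²`, `Expd` gives `#N2 > #(Z ∖ A) / 2 + ε N`. Similarly for `b`:
`N1'`, `P1' = m(N1') ⊆ Z ∖ A`, `N2' ⊆ Z ∩ A`, `#N2' > #(Z ∩ A) / 2 + ε N`. As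
`#(Z ∖ A) / 2 + #(Z ∩ A) / 2 + 2 ε N` exceeds `#(Z ∩ A)` by much more than the number of exceptional
vertices, there is `n2 ∈ N2`, `n2 ∉ S ∪ T ∪ EE`, with `n2' = m n2 ≠ n2`, `n2' ∈ N2'`, `n2' ∉ S ∪ T`. Choose
`p1 ∈ P1` with `R.Adj p1 n2`, `p1 ≠ n2'`, `n1 = m p1`; then `p1' ∈ P1'` with `R.Adj n2' p1'`,
`p1' ≠ n2`, `p1' ≠ n1`, `n1' = m p1'`. Perform `shift(a, n1)`, `shift(p1, n2)`, `shift(n2', p1')`,
`join(n1', b)`. -/
def MPS_stmt : Prop :=
  ∀ ζ ε κ : ℝ, 0 < ζ → 0 < ε → 0 < κ → ∃ (δ : ℝ) (N0 : ℕ), 0 < δ ∧ ∀ (V : Type) [Fintype V]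
    (A Z EE S : Finset V) (R : SimpleGraph V) (m : V → V), N0 ≤ Fintype.card V →
    MCtx A Z EE S R m ζ ε κ δ →
    ∃ (μ : V → V) (T : Finset V), Chg R m μ T ∧ (∀ v ∈ Z, μ v ≠ v) ∧
      T.card ≤ 4 * (Z.filter fun v => m v = v).card ∧ (∀ v ∈ T, (v ∈ Z ∧ m v = v) ∨ v ∉ S) ∧
      ∀ v ∈ EE, v ∉ T

/-- CMP. The middle phase. MRS, MKO, EJA (all with small `η`), then the colours
`i = 0, ..., q - 1` one after the other by MPS: `Z_i = X ∖ H i`, `EE_i` the vertices covered by `E i`,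
`m_i v = E i v` on `EE_i`, otherwise the partner in the class `i` if it exists and is in
`Z_i ∖ EE_i` (and `v ∈ Z_i`), `R_i` the graph of the edges of `R` inside `Z_i` not used by `M j`, `j < i`;
`S_i` the vertices in at least `ζ N / 16` sets `T_j`, `j < i`. At most `2 η N + U` vertices of `Z_i` are
uncovered (missing in the class, partner in `H i` or in `EE_i`), equally many on both sides by EJA; a
vertex is uncovered at most `3 η N` times, so it is touched at most `ζ N / 16 + 1 + 3 η N` times;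
`#S_i ≤ 16 (4 (2 η N + U) q) / (ζ N)`, small. MPS with `ζ / 4`, `ε / 8`, `κ / 2`: the sets used in
`Expd R_i` are subsets of those for `R`, `#(Z_i ∖ A) ≥ #(X ∖ A) - U`, and at most `N (4 (2 η N + U))`
edges of `R` are used in all. -/
def CMP_stmt : Prop :=
  ∀ (ε ζ : ℝ), 0 < ε → 0 < ζ → ∃ θ : ℝ, 0 < θ ∧ ∀ U U3 : ℕ, ∃ N0 : ℕ,
    ∀ (V : Type) [Fintype V] (W C E0 : SimpleGraph V) (A X : Finset V) (q f : ℕ)
    (H : ℕ → Finset V) (h : V → ℕ), N0 ≤ Fintype.card V →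
    MidH W C E0 A X q f H h ε ζ θ U U3 →
    ∃ M : ℕ → V → V, (∀ i < q, MatIn (W ⊔ C) (M i)) ∧
      (∀ i < q, ∀ x ∈ X, (M i x = x ↔ x ∈ H i)) ∧
      (∀ i < q, ∀ j < q, i ≠ j → ∀ v, M i v ≠ v → M i v ≠ M j v) ∧
      ∀ v w, W.Adj v w → ∃ i < q, M i v = w

/-! ## The core theorem -/

/-- COR. The core theorem (for `X` empty there is nothing to prove: `G` has no edges): CKP (with the
`θ'` of CMP for `ε / 4`, and `U4 = 100 (U + 1)`) and CMP for the colours `k, ..., q - 1`, with the graphs `W`, `C` of the inner and cross edges of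
`remG G M (range k)`. -/
def COR_stmt : Prop :=
  ∀ (ε ζ : ℝ), 0 < ε → 0 < ζ → ∃ θ : ℝ, 0 < θ ∧ ∀ U : ℕ, ∃ N0 : ℕ,
    ∀ (V : Type) [Fintype V] (G : SimpleGraph V) (A X : Finset V) (q f : ℕ) (H : ℕ → Finset V)
    (h : V → ℕ), N0 ≤ Fintype.card V → CoreH G A X q f H h ε ζ θ U →
    ∃ M : ℕ → V → V, CoreC G A X q H M

/-! ## From the template to the core theorem -/

/-- PAA. The partition for a template. `H i ⊆ X` are the vertices of `X` not to be covered in the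
colour `i`, `κm i` is the matching formed by the edges of the colour `i` outside `X` or between `X` and
`Xᶜ`. Pair up the vertices of `X` arbitrarily (one, `x*`, is left and put into `A` if `#X` is odd); put one
vertex of each pair and each vertex outside `X` into `A` by independent fair coins. For a given `j < D`
the last two conditions hold with probability at least `2^(-5U)`: the vertices of `H j` whose
partner is not in `H j` (not `x*`) can be given signs such that `#(H j ∩ A) - #(H j ∖ A) = #X % 2`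
(parity), then the at most `4 U` vertices outside `X` of `κm j` can be given suitable signs. So with
probability at least `2^(-5U) / 2` at least `2^(-5U) D / 2` colours are in `F`; the first condition
fails only with a probability tending to zero (HOE). -/
def PAA_stmt : Prop :=
  ∀ U : ℕ, ∃ ζ : ℝ, 0 < ζ ∧ ∀ η : ℝ, 0 < η → ∃ N0 : ℕ, ∀ (V : Type) [Fintype V]
    (G : SimpleGraph V) (D : ℕ) (X : Finset V) (H : ℕ → Finset V) (κm : ℕ → V → V),
    N0 ≤ Fintype.card V → (Fintype.card V : ℝ) / 2 ≤ D → D ≤ Fintype.card V →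
    (∀ i < D, H i ⊆ X ∧ (H i).card ≤ U ∧ (H i).card % 2 = X.card % 2) →
    (∀ i < D, (∀ v, κm i (κm i v) = v) ∧ (∀ v ∈ X, κm i v ≠ v → v ∈ H i ∧ κm i v ∉ X) ∧
      (Finset.univ.filter fun v => κm i v ≠ v).card ≤ 4 * U) →
    ∃ (A : Finset V) (F : Finset ℕ), F ⊆ Finset.range D ∧ ζ * Fintype.card V ≤ F.card ∧
      (∀ v, |(dgs G (X ∩ A) v : ℝ) - dgs G (X \ A) v| ≤ η * Fintype.card V) ∧
      (X ∩ A).card = (X \ A).card + X.card % 2 ∧
      ∀ j ∈ F, (∀ v, κm j v ≠ v → ¬ (v ∈ A ↔ κm j v ∈ A)) ∧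
        (H j ∩ A).card = (H j \ A).card + X.card % 2

/-- The graph of the edges coloured by hand: not inside `X ∖ Md`, and not reserved. -/
abbrev KG {V : Type} (G : SimpleGraph V) (X Md : Finset V) (Rs : SimpleGraph V) :
    SimpleGraph V := outG G (X \ Md) \ Rs

/-- The output of MDA. -/
structure MdOut {V : Type} [Fintype V] (G : SimpleGraph V) (D : ℕ) (X : Finset V)
    (c : Sym2 V → ℕ) (T : V → Finset ℕ) (A : Finset V) (F : Finset ℕ) (Md : Finset V)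
    (c2 : Sym2 V → ℕ) (Rs : SimpleGraph V) : Prop where
  sub : Rs ≤ G
  res : ∀ v w, Rs.Adj v w → ((v ∈ Md ∧ w ∈ X \ Md) ∨ (w ∈ Md ∧ v ∈ X \ Md)) ∧ ¬ (v ∈ A ↔ w ∈ A)
  deg : ∀ v ∈ Md, dg Rs v + (F.filter fun j => v ∈ Hs G X c T j).card = F.card
  pec : PEC (KG G X Md Rs) D c2
  ext : ∀ v w, (outG G X).Adj v w → c2 s(v, w) = c s(v, w)
  nF : ∀ v ∈ Md, ∀ w ∈ X, (KG G X Md Rs).Adj v w → c2 s(v, w) ∉ F
  all : ∀ v ∈ Md, ∀ i < D, i ∉ F → i ∈ T v ∨ has (KG G X Md Rs) c2 v i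
  tok : ∀ v ∈ X, ∀ i ∈ T v, ¬ has (KG G X Md Rs) c2 v i

/-- MDA. The edges at the exceptional vertices `Md = {v₁, ..., v_l}`, `l ≤ q0`, are coloured by hand. For
every `v_j` reserve `#F - #{i ∈ F : v_j ∈ Hs i}` edges to `X ∖ Md` on the other side. For `j = 1, ..., l`
colour the not reserved and not yet coloured edges from `v_j` to `X`; their number `n` equals the number
of the colours `i ∉ F`, `i < D`, not in `T (v_j)` and not present at `v_j`. DBJ gives a bijection such that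
the edge `v_j w` gets a colour not in `T w` and not present at `w`: every `w` forbids at most
`#(T w) + dgs G Xᶜ w + q0 ≤ ε N / 2 + q0` colours, every colour is forbidden by at most `U + 2 q0`
vertices, and `n ≥ (1/2 + ε) N - ε N / 2 - ε N / 10 - q0`, `ε ≤ 1/2`. -/
def MDA_stmt : Prop :=
  ∀ (ε : ℝ) (U q0 : ℕ), 0 < ε → ∃ N0 : ℕ, ∀ (V : Type) [Fintype V] (G : SimpleGraph V) (D : ℕ)
    (X : Finset V) (c : Sym2 V → ℕ) (T : V → Finset ℕ) (A : Finset V) (F : Finset ℕ)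
    (Md : Finset V), N0 ≤ Fintype.card V → (1 / 2 + ε) * Fintype.card V ≤ D →
    D ≤ Fintype.card V → Tmpl G D X c T U (ε / 2) → F ⊆ Finset.range D →
    (F.card : ℝ) ≤ ε / 10 * Fintype.card V → Md ⊆ X → Md.card ≤ q0 →
    (∀ x ∈ X, (Fintype.card V : ℝ) / 8 ≤ dgs G (X ∩ A) x ∧
      (Fintype.card V : ℝ) / 8 ≤ dgs G (X \ A) x) →
    ∃ (c2 : Sym2 V → ℕ) (Rs : SimpleGraph V), MdOut G D X c T A F Md c2 Rs

/-- MA1. The hypotheses of the core theorem. `e` enumerates the colours not in `F`,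
`H i = {x ∈ X ∖ Md : e i ∈ T x or e i present at x in c2}`,
`h x = #{j ∈ F : x ∈ Hs j} + dg Rs x`. Degrees: the edges of `G` at `x ∈ X ∖ Md` are inside
`X ∖ Md`, or in `KG` (their colours in `F` are those of `c`, by `nF` and `ext`), or reserved.
`#(H i) ≤ #(Hs (e i)) + #Md`. Parity: `X ∖ Hs i` is even; the edges of colour `i = e i'` of `KG` inside
`X` cover pairs of vertices of `X ∖ Hs i`, among them all vertices of `Md ∖ Hs i`. Balance: the sum of
`dg Rs` over `(X ∖ Md) ∩ A` is the sum of `#F - #{j ∈ F : v ∈ Hs j}` over `v ∈ Md ∖ A`, and so on. -/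
def MA1_stmt : Prop :=
  ∀ (ε ζ θ : ℝ) (U q0 : ℕ), 0 < ε → 0 < ζ → 0 < θ → ∃ (η : ℝ) (N0 : ℕ), 0 < η ∧
    ∀ (V : Type) [Fintype V] (G : SimpleGraph V) (D : ℕ) (X : Finset V) (c : Sym2 V → ℕ)
    (T : V → Finset ℕ) (A : Finset V) (F : Finset ℕ) (Md : Finset V) (c2 : Sym2 V → ℕ)
    (Rs : SimpleGraph V) (e : ℕ → ℕ) (q : ℕ), N0 ≤ Fintype.card V →
    (1 / 2 + ε) * Fintype.card V ≤ D → D ≤ Fintype.card V → Tmpl G D X c T U (ε / 2) →
    F ⊆ Finset.range D → ζ * Fintype.card V ≤ F.card → (F.card : ℝ) ≤ ε / 10 * Fintype.card V →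
    (∀ v, |(dgs G (X ∩ A) v : ℝ) - dgs G (X \ A) v| ≤ η * Fintype.card V) →
    (X ∩ A).card = (X \ A).card + X.card % 2 →
    (∀ j ∈ F, (Hs G X c T j ∩ A).card = (Hs G X c T j \ A).card + X.card % 2) →
    Md ⊆ X → Md.card ≤ q0 →
    (∀ x ∈ X \ Md, (dgs G Xᶜ x : ℝ) + (T x).card ≤ θ / 2 * Fintype.card V) →
    MdOut G D X c T A F Md c2 Rs → q + F.card = D →
    (∀ i < q, e i < D ∧ e i ∉ F) → (∀ i < q, ∀ j < q, e i = e j → i = j) →
    (∀ k < D, k ∉ F → ∃ i < q, e i = k) →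
    CoreH (onG G (X \ Md)) A (X \ Md) q F.card
      (fun i => (X \ Md).filter fun x => e i ∈ T x ∨ has (KG G X Md Rs) c2 x (e i))
      (fun x => (F.filter fun j => x ∈ Hs G X c T j).card + dg Rs x) ε ζ θ (U + q0 + 1)

/-- MA2. The final colouring. For `i < q` the union of `M i` and the edges of `KG` of colour `e i` is a
matching: `M' i v = M i v` if `v ∈ X ∖ Md`, `v ∉ H i`, and `ptn (KG ..) c2 (e i) v` otherwise. The edges
of `G` not in these matchings are all cross edges: the edges of `KG` with a colour in `F` (they are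
edges of `outG G X`), the reserved edges, and cross edges inside `X ∖ Md`; every vertex is on at most
`#F` of them (for `x ∈ X` there are exactly `#F - #(T x ∩ F)`; for `y ∉ X` at most one for every colour in
`F`). KON and COV, CUP. -/
def MA2_stmt : Prop :=
  ∀ (V : Type) [Fintype V] (G : SimpleGraph V) (D : ℕ) (X : Finset V) (c : Sym2 V → ℕ)
    (T : V → Finset ℕ) (U : ℕ) (κ : ℝ) (A : Finset V) (F : Finset ℕ) (Md : Finset V)
    (c2 : Sym2 V → ℕ) (Rs : SimpleGraph V) (e : ℕ → ℕ) (q : ℕ) (M : ℕ → V → V),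
    Tmpl G D X c T U κ → F ⊆ Finset.range D →
    (∀ v w, (outG G X).Adj v w → c s(v, w) ∈ F → ¬ (v ∈ A ↔ w ∈ A)) → Md ⊆ X →
    MdOut G D X c T A F Md c2 Rs → q + F.card = D →
    (∀ i < q, e i < D ∧ e i ∉ F) → (∀ i < q, ∀ j < q, e i = e j → i = j) →
    (∀ k < D, k ∉ F → ∃ i < q, e i = k) →
    CoreC (onG G (X \ Md)) A (X \ Md) q
      (fun i => (X \ Md).filter fun x => e i ∈ T x ∨ has (KG G X Md Rs) c2 x (e i)) M →
    EC G D

/-- MAC. The machine. Constants: `ζ₀` from PAA (for `U`), `ζ = min(ζ₀, ε/10) / 2`, `θ` from COR for `ε`,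
`ζ`; `q0 = ⌈2 U / θ⌉ + 1`; then `η` from MA1 and all `N0`s (COR with the bound `U + q0 + 1`). PAA for
`H i = Hs ..` and `κm i = ptn (outG G X) c i` (PTN); choose a subset `F` with `⌊2 ζ N⌋` elements (at least
`ζ N`, at most `ε N / 10`). `Md = {x ∈ X : θ N / 2 < dgs G Xᶜ x + #(T x)}`: since
`Σ_{x∈X} (dgs G Xᶜ x + #(T x)) = Σ_{i<D} #Hs i ≤ U D` (SCN), `#Md ≤ 2 U / θ`. For `x ∈ X`:
`dgs G X x ≥ D - ε N / 2 ≥ (1/2 + ε/2) N`, so both halves are at least `N / 8`. MDA; `e` an enumeration of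
the colours not in `F`; MA1, COR, MA2. -/
def MAC_stmt : Prop :=
  ∀ (ε : ℝ) (U : ℕ), 0 < ε → ∃ N0 : ℕ, ∀ (V : Type) [Fintype V] (G : SimpleGraph V) (D : ℕ)
    (X : Finset V) (c : Sym2 V → ℕ) (T : V → Finset ℕ), N0 ≤ Fintype.card V →
    (1 / 2 + ε) * Fintype.card V ≤ D → D ≤ Fintype.card V → Tmpl G D X c T U (ε / 2) → EC G D

/-! ## The final theorem -/

/-- FIG. The general form. `D ≤ N - 1`: by VIZ some vertex has degree `D`. Put `ρ = ε / 80`. Case A: some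
`y` has `d(y) + 4 ρ N ≤ D`. `X = {v : D < d(v) + ρ N}`. BGN gives `C`; if
`Σ_{x∈X} (D - d(x)) + ep G X Xᶜ ≥ C N` then `EC G D`, a contradiction. Otherwise TA1 (with this `C`):
the first alternative and OVF give the claim, the second and MAC (with the `U` of TA1) give `EC G D`.
Case B: `D < d(v) + 4 ρ N` for all `v`: the same with `4 ρ = ε / 20` in place of `ρ`, `X` everything,
TA2. -/
def FIG_stmt : Prop :=
  ∀ ε : ℝ, 0 < ε → ∃ N0 : ℕ, ∀ (V : Type) [Fintype V] (G : SimpleGraph V) (D : ℕ),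
    N0 ≤ Fintype.card V → (1 / 2 + ε) * Fintype.card V ≤ D → Crit G D →
    Fintype.card V % 2 = 1 ∧ ep G Finset.univ Finset.univ = D * (Fintype.card V - 1) + 2

/-- FIN. The theorem in the form of the problem. `D = 2 n + 1 - r = G.maxDegree`,
`D ≥ (1 + ε) n + 1 ≥ (1/2 + ε/3) (2 n + 1)`; `Crit G D` by LGC (`chromaticNumber < D + 1` gives
`Colorable D`); `ep G univ univ = 2 #E = D * 2 n + 2` and
`(2 n + 1).choose 2 = n (2 n + 1)`. -/
def FIN_stmt : Prop :=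
  ∀ ε : ℝ, 0 < ε → ∃ n0 : ℕ, ∀ (V : Type) [Fintype V] [DecidableEq V] (G : SimpleGraph V)
    [DecidableRel G.Adj] (n r : ℕ), n0 ≤ n → 1 ≤ r → (r : ℝ) ≤ (1 - ε) * n →
    Fintype.card V = 2 * n + 1 → G.Connected →
    G.lineGraph.chromaticNumber = ((G.maxDegree + 1 : ℕ) : ℕ∞) →
    (∀ e ∈ G.edgeSet,
      (G.deleteEdges {e}).lineGraph.chromaticNumber < G.lineGraph.chromaticNumber) →
    G.maxDegree = 2 * n + 1 - r → G.edgeFinset.card = (2 * n + 1).choose 2 - r * n + 1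

end

end Pool.Agent.OF
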