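import Pool.Agent.helper86.OF.DefsX
import Pool.Agent.helper86.OF.SpecL

/-!
# Edge colouring of dense critical graphs: graphs with many units (part X)

MP_c62920_co. `N` is the number of vertices. Model: `V = X ∪ Y`, all degrees in `X` are `D`, the
degrees in `Y = Xᶜ` are at most `D - ρ N`, `D ≥ (1/2 + ε) N`, and there are more than `C N` edges
between `X` and `Y`. Then `G` is `D`-edge-colourable (BTM).

Operations on a matching `μ` (partner function) with `u` not covered: for a cross edge `u b` of `C`,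
`b` covered with partner `b'`, `shift(u, b)` replaces the edge `b b'` by `u b` (now `b'` is not
covered); `join(u, w)` adds the edge `u w` (both not covered).
-/

open scoped BigOperators

namespace Pool.Agent.OF

noncomputable section

open Classical

/-! ## One colour of the first phase -/

/-- KB1. A vertex `u` which is not stuck can be covered. Among the at least `2 ε N` vertices `b` in
the set of `stk` there is one with `b ∉ T`, `m b ∉ T`, and `m b ∉ S` or `m b = b` (the exceptions are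
at most `2 #T + #S`). Add the edge `u b` (`shift(u, b)` if `b` is covered: its partner is outside `X`).
`T' = T ∪ {u, b, m b}`. If `u` has fewer than `ε N` neighbours outside `X` and `m` is not dense this is
impossible: the vertices `b` of the set of `stk` are outside `X` (less than `ε N`), or uncovered
vertices of `X` (at most `ε N / 10`), or in `X` with partner outside `X` (less than `ε N / 2`). -/
def KB1_stmt : Prop :=
  ∀ (V : Type) [Fintype V] (A X Z S T : Finset V) (C : SimpleGraph V) (m μ : V → V) (ε : ℝ),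
    KCtx A X Z C m S ε → Chg C m μ T → (T.card : ℝ) ≤ ε / 4 * Fintype.card V →
    ∀ u ∈ X, μ u = u → ¬ stk C m X S ε u →
    (ε * Fintype.card V ≤ dgs C Xᶜ u ∨ dns m X ε) ∧
    ∃ (μ' : V → V) (T' : Finset V), Chg C m μ' T' ∧ T ⊆ T' ∧ T'.card ≤ T.card + 3 ∧
      (∀ x ∈ X, μ x ≠ x → μ' x ≠ x) ∧ μ' u ≠ u ∧ (∀ v ∈ T', v ∈ T ∨ v = u ∨ v ∉ S) ∧
      xch m μ' X ≤ xch m μ X + 3

/-- KB2. Two stuck vertices can be covered together. Let `P(u)` be the set of the `b ∉ S ∪ T` with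
`C.Adj u b`, `m b ≠ b`, `m b ∈ X`, `m b ∉ S ∪ T`: `#P(u) ≥ (1/4 + 2.4 ε) N`. Same side: the partners
`m b`, `b ∈ P(u)`, and the vertices of `N_C(w) ∖ (S ∪ T)` are on the same side, which has at most
`(1/2 + ε) N` elements, so at least `6 ε N` vertices `b ∈ P(u)` have `C.Adj w (m b)`; `shift(u, b)`,
`join(w, m b)`. If `m` is not dense, choose `b ∈ X` (fewer than `ε N / 2` of the `b` are outside `X`).
Opposite sides: choose `b ∈ P(u)` (in `X` if `m` is not dense) and put `p = m b`, a vertex of `X` on the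
side of `w`; the vertices of `N_C(p) ∖ (S ∪ T ∪ ...)` and the partners `m a'`, `a' ∈ P(w)`, are on the
side of `u`: choose `a' ∈ P(w)` (in `X` if `m` is not dense) with `a = m a'` adjacent to `p`;
`shift(u, b)`, `shift(p, a)`, `join(w, a')`. If all the vertices `b, a'` are in `X` no vertex of `X`
gets or loses a partner outside `X`. -/
def KB2_stmt : Prop :=
  ∀ (V : Type) [Fintype V] (A X Z S T : Finset V) (C : SimpleGraph V) (m μ : V → V) (ε : ℝ),
    KCtx A X Z C m S ε → Chg C m μ T → ((T.card : ℝ) + 10) ≤ ε / 4 * Fintype.card V →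
    ∀ u ∈ X, ∀ w ∈ X, u ≠ w → μ u = u → μ w = w → stk C m X S ε u → stk C m X S ε w →
    ∃ (μ' : V → V) (T' : Finset V), Chg C m μ' T' ∧ T ⊆ T' ∧ T'.card ≤ T.card + 6 ∧
      (∀ x ∈ X, μ x ≠ x → μ' x ≠ x) ∧ μ' u ≠ u ∧ μ' w ≠ w ∧
      (∀ v ∈ T', v ∈ T ∨ v = u ∨ v = w ∨ v ∉ S) ∧
      xch m μ' X ≤ xch m μ X + 6 ∧ (¬ dns m X ε → xch m μ' X ≤ xch m μ X)

/-- KB3. The last vertex. `u` is the only uncovered vertex of `X`, and it is stuck; `P(u)` as in KB2.
(E) If some `b ∈ P(u)` has a partner `p = m b` which is not stuck: `shift(u, b)` and KB1 for `p`.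
Otherwise all `p = m b`, `b ∈ P(u)`, are stuck. Let `n` be the number of `x ∈ X` with `μ x ∉ X`.
(a) `n ≥ 2 #S2 + 1`: there is an edge `z y` of `μ`, `z ∈ X`, `y ∉ X`, with `z, y ∉ S2`; delete it.
(b) `n ≤ 2 #S2`: there is an edge `x y` of `C`, `x ∈ X`, `y ∉ X`, with `x ≠ u`, `μ x ∈ X`, `μ y ∉ X`,
and `x, y, μ x, μ y ∉ S2` (the excluded vertices are at most `8 #S2 + 1`, and every vertex is on at
most `N` edges); put `z = μ x`, delete the edges `x z` and `y (μ y)` (if `y` is covered) and add `x y`.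
In both cases exactly `u` and `z` are now uncovered in `X`, and they are joined, avoiding the new
elements of `T`, as in KB2: same side: `shift(u, b)`, `join(z, m b)` with `b ∈ P(u)`, `C.Adj z (m b)`;
opposite sides: `b ∈ P(u)`, `p = m b` stuck, `P(p)` has at least `(1/4 + 2.3 ε) N` elements, so there is
`a ∈ P(p)` with `C.Adj z (m a)`: `shift(u, b)`, `shift(p, a)`, `join(z, m a)`. `T2 = {z, y}` or
`{x, y, z, μ y}`. (`μ y` may be `y`.) -/
def KB3_stmt : Prop :=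
  ∀ (V : Type) [Fintype V] (A X Z S S2 T : Finset V) (C : SimpleGraph V) (m μ : V → V) (ε : ℝ),
    KCtx A X Z C m S ε → Chg C m μ T → ((T.card : ℝ) + 40) ≤ ε / 4 * Fintype.card V →
    (8 * S2.card + 4) * Fintype.card V < ep C X Xᶜ →
    ∀ u ∈ X, μ u = u → (∀ x ∈ X, x ≠ u → μ x ≠ x) → stk C m X S ε u →
    ∃ (μ' : V → V) (T' T2 : Finset V), Chg C m μ' T' ∧ T ⊆ T' ∧ T'.card ≤ T.card + 14 ∧
      (∀ x ∈ X, μ' x ≠ x) ∧ T2.card ≤ 4 ∧ Disjoint T2 S2 ∧
      (∀ v ∈ T', v ∈ T ∨ v = u ∨ v ∉ S ∨ v ∈ T2) ∧ xch m μ' X ≤ xch m μ X + 14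

/-- KSB. One colour. Starting with `μ = m`, `T = ∅`: cover the uncovered vertices of `X` which are not
stuck by KB1, one after the other; pair up the stuck ones and use KB2; if one stuck vertex is left,
use KB3. -/
def KSB_stmt : Prop :=
  ∀ (V : Type) [Fintype V] (A X S S2 : Finset V) (C : SimpleGraph V) (m : V → V) (ε : ℝ),
    KCtx A X Finset.univ C m S ε →
    ((X.filter fun x => m x = x).card : ℝ) ≤ ε / 1000 * Fintype.card V →
    1000 ≤ ε * Fintype.card V → (8 * S2.card + 4) * Fintype.card V < ep C X Xᶜ →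
    ∃ (μ : V → V) (T T2 : Finset V), Chg C m μ T ∧ (∀ x ∈ X, μ x ≠ x) ∧
      T.card ≤ 8 * (X.filter fun x => m x = x).card + 20 ∧ T2.card ≤ 4 ∧ Disjoint T2 S2 ∧
      (∀ v ∈ T, (v ∈ X ∧ m v = v) ∨ v ∉ S ∨ v ∈ T2) ∧
      xch m μ X ≤ 20 + 10 * (if dns m X ε then (X.filter fun x => m x = x).card else
        (X.filter fun x => m x = x ∧ ε * Fintype.card V ≤ dgs C Xᶜ x).card)

/-! ## The first phase -/

/-- KPB. The colours `i = 0, ..., k-1` one after the other. `m_i = ptn (innerG G A) c i`; `C_i` is the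
cross graph without the edges of `M j`, `j < i`; `S_i` the set of the vertices in at least `θ N / 4` of
the sets `T_j` of KSB, `S2_i` the set of the vertices in at least `θ N / 4` of the sets `T2_j`, `j < i`.
All hypotheses of KSB hold for small `δ` and large `N`: `Σ_j #T_j ≤ k (8 δ N + 20)`, so
`#S_i ≤ (32 δ N² + 80 N) / (θ N) ≤ ε N / 10`; `#S2_i ≤ 16 / θ`; a vertex `v` is in at most
`θ N / 4 + 1` sets `T_j` with `v ∉ S_j`, in at most `θ N / 4 + 1` sets `T2_j`, and is uncovered in at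
most `δ N` classes, so in all it is touched at most `θ N` times: cross degrees decrease by at most
`θ N ≤ ε N`. `Σ_i xch ≤ 20 k + 10 (number of dense classes) δ N + 10 Σ_{x heavy} (number of classes
missing x) ≤ 20 N + 10 (2 U / (ε N)) δ N + 10 (U / (ε N)) δ N ≤ θ2 U`, `U = ep G X Xᶜ ≥ C0 N`; and
`ep C_i X Xᶜ ≥ U / 3 - Σ xch ≥ U / 4 > (8 #S2_i + 4) N`. -/
def KPB_stmt : Prop :=
  ∀ ε θ θ2 : ℝ, 0 < ε → ε ≤ 1 / 100 → 0 < θ → θ ≤ ε → 0 < θ2 →
    ∃ (δ C0 : ℝ) (N0 : ℕ), 0 < δ ∧ 0 < C0 ∧ ∀ (V : Type) [Fintype V] (G : SimpleGraph V)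
    (A X : Finset V) (k : ℕ) (c : Sym2 V → ℕ), N0 ≤ Fintype.card V → k ≤ Fintype.card V →
    PEC (innerG G A) k c → (A.card : ℝ) ≤ (1 / 2 + ε) * Fintype.card V →
    (Aᶜ.card : ℝ) ≤ (1 / 2 + ε) * Fintype.card V →
    (∀ x ∈ X, (1 / 4 + 10 * ε) * Fintype.card V ≤ dg (crossG G A) x) →
    (∀ x ∈ X, (k : ℝ) ≤ dg (innerG G A) x + δ * Fintype.card V) →
    (∀ i < k, (mis (innerG G A) c X i : ℝ) ≤ δ * Fintype.card V) →
    C0 * Fintype.card V ≤ ep G X Xᶜ → ep G X Xᶜ ≤ 3 * ep (crossG G A) X Xᶜ →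
    ∃ M : ℕ → V → V, KOut G A X k c M ∧
      (∀ v, (((Finset.range k).filter fun i => M i v ≠ ptn (innerG G A) c i v).card : ℝ) ≤
        θ * Fintype.card V) ∧
      (((∑ i ∈ Finset.range k, xch (ptn (innerG G A) c i) (M i) X : ℕ)) : ℝ) ≤
        θ2 * ep G X Xᶜ

/-- PAB. The partition. Order `X` by the number of neighbours in `Xᶜ` and take consecutive pairs
(if `#X` is odd leave the vertex with the smallest number); order `Xᶜ` by the number of neighbours in
`X` and do the same. Put one vertex of each pair into `A`, by independent fair coins (and the left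
vertices by further coins). (b), (c), (d) hold always
(telescoping sums). (a): each difference is a sum of independent signs with coefficients in
`{-1, 0, 1}` plus at most 1, HOE and the union bound. (e): the sum `Σ_{xy} σ_x σ_y` over the edges
between `X` and `Xᶜ` has the second moment `≤ 4 U`, `U = ep G X Xᶜ ≥ C0 N`, Chebyshev. -/
def PAB_stmt : Prop :=
  ∀ η : ℝ, 0 < η → ∃ (C0 : ℝ) (N0 : ℕ), 0 < C0 ∧ ∀ (V : Type) [Fintype V] (G : SimpleGraph V)
    (X : Finset V), N0 ≤ Fintype.card V → C0 * Fintype.card V ≤ ep G X Xᶜ → ∃ A : Finset V,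
    (∀ v, |(dgs G (X ∩ A) v : ℝ) - dgs G (X \ A) v| ≤ η * Fintype.card V ∧
      |(dgs G (Xᶜ ∩ A) v : ℝ) - dgs G (Xᶜ \ A) v| ≤ η * Fintype.card V) ∧
    |((X ∩ A).card : ℝ) - (X \ A).card| ≤ 1 ∧ |((Xᶜ ∩ A).card : ℝ) - (Xᶜ \ A).card| ≤ 1 ∧
    |(ep G (X ∩ A) Xᶜ : ℝ) - ep G (X \ A) Xᶜ| ≤ Fintype.card V ∧
    |(ep G X (Xᶜ ∩ A) : ℝ) - ep G X (Xᶜ \ A)| ≤ Fintype.card V ∧
    |(ep G (X ∩ A) (Xᶜ ∩ A) : ℝ) + ep G (X \ A) (Xᶜ \ A) - ep G (X ∩ A) (Xᶜ \ A) -
      ep G (X \ A) (Xᶜ ∩ A)| ≤ (ep G X Xᶜ : ℝ) / 5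

/-! ## The second phase -/

/-- WB1. The balance of the edges which are left after the first phase (`W` the inner edges left, `xc`
the total of `xch`). Count the vertices of `X ∩ A` covered by the `M i`:
`k #(X ∩ A) = 2 (e(X_A) - w(X_A)) + (e(X_A, Y_A) - w(X_A, Y_A)) + cross(X_A, X_B) + q_A`, `q_A` the number
of used edges between `X ∩ A` and `Xᶜ ∖ A` (inner edges of `M i` are exactly the edges of the class `i`
which are not left), and the same for `X ∖ A`; and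
`D #(X ∩ A) = 2 e(X_A) + e(X_A, X_B) + ep G (X ∩ A) Xᶜ`. Subtract. An edge `x y` of `W` with `x ∈ X`,
`y ∉ X` and class `i` contributes to `xch (ptn i) (M i) X` (at `x`), and so does a used cross edge. -/
def WB1_stmt : Prop :=
  ∀ (V : Type) [Fintype V] (G : SimpleGraph V) (A X : Finset V) (D k : ℕ) (c : Sym2 V → ℕ)
    (M : ℕ → V → V), PEC (innerG G A) k c → KOut G A X k c M → (∀ x ∈ X, dg G x = D) →
    k ≤ Fintype.card V → D ≤ Fintype.card V → |((X ∩ A).card : ℝ) - (X \ A).card| ≤ 1 →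
    |(ep G (X ∩ A) Xᶜ : ℝ) - ep G (X \ A) Xᶜ| ≤ Fintype.card V →
    |(ep G X (Xᶜ ∩ A) : ℝ) - ep G X (Xᶜ \ A)| ≤ Fintype.card V →
    |(ep (innerG (remG G M (Finset.range k)) A) (X ∩ A) (X ∩ A) : ℝ) -
        ep (innerG (remG G M (Finset.range k)) A) (X \ A) (X \ A)| ≤
      4 * Fintype.card V + 2 * ∑ i ∈ Finset.range k, xch (ptn (innerG G A) c i) (M i) X ∧
    ep (innerG (remG G M (Finset.range k)) A) X Xᶜ ≤
      ∑ i ∈ Finset.range k, xch (ptn (innerG G A) c i) (M i) X ∧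
    ∀ S ⊆ X, ∀ T ⊆ Xᶜ, ep (crossG G A) S T ≤ ep (crossG (remG G M (Finset.range k)) A) S T +
      ∑ i ∈ Finset.range k, xch (ptn (innerG G A) c i) (M i) X

/-- KDG. Degrees after the first phase. -/
def KDG_stmt : Prop :=
  ∀ (V : Type) [Fintype V] (G : SimpleGraph V) (A X : Finset V) (k : ℕ) (c : Sym2 V → ℕ)
    (M : ℕ → V → V), PEC (innerG G A) k c → KOut G A X k c M →
    (∀ v, dg (innerG (remG G M (Finset.range k)) A) v ≤
      ((Finset.range k).filter fun i => M i v ≠ ptn (innerG G A) c i v).card) ∧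
    (∀ v, dg (crossG G A) v ≤ dg (crossG (remG G M (Finset.range k)) A) v +
      ((Finset.range k).filter fun i => M i v ≠ ptn (innerG G A) c i v).card) ∧
    ∀ x ∈ X, dg (remG G M (Finset.range k)) x + k = dg G x

/-- DSL. Designated edges. Greedy: for `i = 0, ..., w-1` choose `r` disjoint edges between `X ∩ A` and
`Xᶜ ∖ A` and `r` disjoint edges between `X ∖ A` and `Xᶜ ∩ A`, different from all edges chosen before,
avoiding the vertices already chosen for `i` (at most `4 r`) and the overloaded vertices (in at least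
`τ N - 1` of the matchings so far: at most `4 r w / (τ N - 1) ≤ 8 r / τ`); the edges at these vertices
are at most `(4 r + 8 r / τ) N`, those already used at most `2 r w ≤ 2 r N`. -/
def DSL_stmt : Prop :=
  ∀ τ : ℝ, 0 < τ → ∃ (K : ℝ) (N0 : ℕ), 0 < K ∧ ∀ (V : Type) [Fintype V] (C : SimpleGraph V)
    (A X : Finset V) (w r : ℕ), N0 ≤ Fintype.card V → w ≤ Fintype.card V → 1 ≤ r →
    (∀ v w', C.Adj v w' → ¬ (v ∈ A ↔ w' ∈ A)) →
    K * (r + 1) * Fintype.card V ≤ ep C (X ∩ A) (Xᶜ \ A) →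
    K * (r + 1) * Fintype.card V ≤ ep C (X \ A) (Xᶜ ∩ A) →
    ∃ Dm : ℕ → V → V, Desg C A X w r (τ * Fintype.card V) Dm

/-- WDI. Distribution of the edges of `W` to `w` colours. Items: pairs consisting of an edge inside
`X ∩ A` and one inside `X ∖ A` (type 0), the remaining edges inside `X` (type 1; at most `s / 2`, all on
one side), the edges between `X` and `Xᶜ` (type 2; at most `s`), the edges outside `X` (type 3). GRA
(without `hit`): conflicts (a common vertex) `d = ⌊4 θ N⌋`; bad colours (the item meets the designated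
matching) `b = ⌊4 τ' ⌋`, `τ' = θ1 N / 10`; `cap τ = ⌈10 count / w⌉`, `s τ = w / 10 + 1`. Colours get at
most `10 s / w + 2` edges of type 1 and `10 s / w + 1` of type 2. The number of vertices of `E i` is at
most `4 (10 (θ N² / 2) / (θ1 N) + 1) + 2 (...)`, small for `θ` small compared with `θ1 ε`. -/
def WDI_stmt : Prop :=
  ∀ θ1 ε : ℝ, 0 < θ1 → 0 < ε → ∃ (θ : ℝ) (N0 : ℕ), 0 < θ ∧ ∀ (V : Type) [Fintype V]
    (W C : SimpleGraph V) (A X : Finset V) (w r : ℕ) (Dm : ℕ → V → V) (s : ℝ),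
    N0 ≤ Fintype.card V → θ1 * Fintype.card V ≤ w → w ≤ Fintype.card V →
    (∀ v v', W.Adj v v' → (v ∈ A ↔ v' ∈ A)) → (∀ v, (dg W v : ℝ) ≤ θ * Fintype.card V) →
    Desg C A X w r (θ1 / 10 * Fintype.card V) Dm → 0 ≤ s →
    |(ep W (X ∩ A) (X ∩ A) : ℝ) - ep W (X \ A) (X \ A)| ≤ s → (ep W X Xᶜ : ℝ) ≤ s →
    ∃ E : ℕ → V → V, (∀ i < w, MatIn W (E i)) ∧ (∀ v v', W.Adj v v' → ∃ i < w, E i v = v') ∧
      (∀ i < w, ∀ j < w, i ≠ j → ∀ v, E i v ≠ v → E i v ≠ E j v) ∧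
      (∀ i < w, ∀ v, Dm i v ≠ v → E i v = v) ∧
      (∀ i < w, ((Finset.univ.filter fun v => E i v ≠ v).card : ℝ) ≤ ε * Fintype.card V) ∧
      ∀ i < w, |(((X ∩ A).filter fun x => E i x ≠ x).card : ℝ) -
        ((X \ A).filter fun x => E i x ≠ x).card| ≤ 40 * s / w + 10

/-- HST. The Hall step. Let `Γ` be the graph of the edges `v v'` of `C` with `E v = v`, `E v' = v'` and
(`v, v' ∈ X`, or `v ∈ Hv`, or `v' ∈ Hv`, or `Dm v = v'`). MDU for `S₀ = {x ∈ X ∩ A : E x = x}` and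
`T₀ = {x ∈ X ∖ A : E x = x}`. Let `S ⊆ S₀` be nonempty. If `#S ≤ (1/4 + 4 ε) N` the neighbours of one
element suffice. Otherwise every `x' ∈ T₀` has more than `#A - #S` neighbours in `A`, so `N(S) ⊇ T₀`;
moreover `N(S)` contains the partners `Dm x ∉ X` of the at least `r - (#S₀ - #S)` elements `x` of `S`
covered by `Dm`; and `#T₀ + r ≥ #S₀`. Same for `T₀`. -/
def HST_stmt : Prop :=
  ∀ (V : Type) [Fintype V] (C : SimpleGraph V) (A X Hv : Finset V) (Dm E : V → V) (r : ℕ) (ε : ℝ),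
    0 < ε → ε ≤ 1 / 100 → (∀ v w, C.Adj v w → ¬ (v ∈ A ↔ w ∈ A)) →
    (A.card : ℝ) ≤ (1 / 2 + ε) * Fintype.card V → (Aᶜ.card : ℝ) ≤ (1 / 2 + ε) * Fintype.card V →
    MatIn C Dm → (∀ v, Dm v ≠ v → (v ∈ X ↔ Dm v ∉ X)) →
    ((X ∩ A).filter fun x => Dm x ≠ x).card = r → ((X \ A).filter fun x => Dm x ≠ x).card = r →
    (∀ v, E (E v) = v) → (∀ v, Dm v ≠ v → E v = v) →
    (∀ x ∈ X, E x = x → (1 / 4 + 4 * ε) * Fintype.card V ≤ ((Finset.univ.filter fun b =>
      E b = b ∧ C.Adj x b ∧ (b ∈ X ∨ x ∈ Hv ∨ b ∈ Hv ∨ Dm x = b)).card : ℝ)) →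
    |(((X ∩ A).filter fun x => E x = x).card : ℝ) - ((X \ A).filter fun x => E x = x).card| ≤ r →
    ∃ m, MatIn C m ∧ (∀ v, E v ≠ v → m v = v) ∧ (∀ x ∈ X, E x = x → m x ≠ x) ∧
      ∀ v, m v ≠ v → (v ∈ X ∧ m v ∈ X) ∨ v ∈ Hv ∨ m v ∈ Hv ∨ Dm v = m v

/-- WPH. The second phase. For `i = 0, ..., w-1` apply HST to the graph `C_i` of the edges of `C` not in
`M j`, `j < i`, and not in `Dm j`, `j ≠ i`, with `Hv = {x ∈ X : ε N ≤ dgs C Xᶜ x}`, `E = E i`; `M i` is the
union of the result and `E i`. The numbers of allowed neighbours: at least `(1/4 + 10 ε) N - i - ε N` (if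
`x ∉ Hv`, without those outside `X`; if `x ∈ Hv`, without the `Dm j`-edges) `- #V(E i)`. -/
def WPH_stmt : Prop :=
  ∀ (V : Type) [Fintype V] (W C : SimpleGraph V) (A X : Finset V) (w r : ℕ) (Dm E : ℕ → V → V)
    (ε : ℝ), 0 < ε → ε ≤ 1 / 100 → (w : ℝ) ≤ ε * Fintype.card V →
    (∀ v v', C.Adj v v' → ¬ (v ∈ A ↔ v' ∈ A)) → (∀ v v', W.Adj v v' → (v ∈ A ↔ v' ∈ A)) →
    (A.card : ℝ) ≤ (1 / 2 + ε) * Fintype.card V → (Aᶜ.card : ℝ) ≤ (1 / 2 + ε) * Fintype.card V →
    (∀ x ∈ X, (1 / 4 + 10 * ε) * Fintype.card V ≤ dg C x) →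
    Desg C A X w r (ε * Fintype.card V) Dm → (∀ i < w, MatIn W (E i)) →
    (∀ i < w, ∀ j < w, i ≠ j → ∀ v, E i v ≠ v → E i v ≠ E j v) →
    (∀ i < w, ∀ v, Dm i v ≠ v → E i v = v) →
    (∀ i < w, ((Finset.univ.filter fun v => E i v ≠ v).card : ℝ) ≤ ε * Fintype.card V) →
    (∀ i < w, |(((X ∩ A).filter fun x => E i x ≠ x).card : ℝ) -
      ((X \ A).filter fun x => E i x ≠ x).card| + 1 ≤ r) →
    |((X ∩ A).card : ℝ) - (X \ A).card| ≤ 1 →
    ∃ M : ℕ → V → V, (∀ i < w, MatIn (W ⊔ C) (M i)) ∧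
      (∀ i < w, ∀ v, E i v ≠ v → M i v = E i v) ∧ (∀ i < w, ∀ x ∈ X, M i x ≠ x) ∧
      ∀ i < w, ∀ j < w, i ≠ j → ∀ v, M i v ≠ v → M i v ≠ M j v

/-! ## The theorem -/

/-- BTM. The theorem on the model. Constants: `ε₁ = ε / 100` (at most `1/200`; if `X` is empty there is
nothing to prove, otherwise `ε ≤ 1/2`), `θ1 = min(ε₁, ρ) / 40`, `θ` from WDI (and at most `ε₁`),
`K` from DSL with `τ = θ1 / 10`, `θ2` small, `C` large.
PAB with small `η` gives `A`; inner and cross degrees of `v` are `(d(v) ± 2 η N) / 2`. Each of the four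
types of edges between `X` and `Xᶜ` has at least `U / 6` elements, `U = ep G X Xᶜ`.
VIZ and BAV (for `innerG G A` and `X`) with `k = ⌊D / 2 + η N⌋ + 1`: classes missing at most `δ N`
vertices of `X`. KPB. WB1, KDG. `w = ⌈θ1 N⌉`, `s = 4 N + 2 θ2 U`, `r = ⌈40 s / w⌉ + 12`; DSL for
`crossG (remG ..)`: `K (r + 1) N ≤ U / 7` by the choice of `θ2` and `C`. WDI, WPH. After this every
`x ∈ X` has exactly `D - k - w` edges left, a vertex `y ∉ X` at most
`(D - ρ N) / 2 + η N ≤ D - k - w`; all edges left are cross edges: KON. Finally CUP and COV. -/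
def BTM_stmt : Prop :=
  ∀ ε ρ : ℝ, 0 < ε → 0 < ρ → ∃ (C : ℝ) (N0 : ℕ), 0 < C ∧ ∀ (V : Type) [Fintype V]
    (G : SimpleGraph V) (D : ℕ) (X : Finset V), N0 ≤ Fintype.card V →
    (1 / 2 + ε) * Fintype.card V ≤ D → (∀ x ∈ X, dg G x = D) →
    (∀ y, y ∉ X → (dg G y : ℝ) + ρ * Fintype.card V ≤ D) → C * Fintype.card V ≤ ep G X Xᶜ → EC G D

/-- BGN. The general theorem. Add `m = ⌈4 ρ N⌉` new vertices and join every `x ∈ X` to
`D - d(x) < ρ N` of them, such that every new vertex gets at most `D / 2` neighbours (for instance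
cyclically). All `x ∈ X` get degree `D`; the new graph on `N + m` vertices satisfies the hypotheses of
BTM with `ε / 2` and `ρ / 2`; its edges between `X` and the rest are
`Σ_{x∈X} (D - d(x)) + ep G X Xᶜ`. Restrict the colouring to `G`. -/
def BGN_stmt : Prop :=
  ∀ ε ρ : ℝ, 0 < ε → 0 < ρ → ρ ≤ ε / 20 → ∃ (C : ℝ) (N0 : ℕ), 0 < C ∧ ∀ (V : Type) [Fintype V]
    (G : SimpleGraph V) (D : ℕ) (X : Finset V), N0 ≤ Fintype.card V → (∀ v, dg G v ≤ D) →
    (1 / 2 + ε) * Fintype.card V ≤ D →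
    (∀ v, v ∈ X ↔ (D : ℝ) < dg G v + ρ * Fintype.card V) →
    C * Fintype.card V ≤ ((∑ x ∈ X, (D - dg G x) + ep G X Xᶜ : ℕ) : ℝ) → EC G D

end

end Pool.Agent.OF
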